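import Mathlib

/-!
# Hurwitz's theorem

Zeros of limits of holomorphic functions, limits of injective holomorphic functions.
-/

set_option autoImplicit false

namespace Pool.Agent.Helper99.CK

open Filter Topology Metric Set

/-- If the functions `f i` have no zero in a ball around `b` and converge uniformly on the closed
balls inside it to `g` with `g b = 0`, then `g` vanishes near `b`. -/
theorem hurwitz_local {ι : Type*} {l : Filter ι} [l.NeBot] {f : ι → ℂ → ℂ} {g : ℂ → ℂ} {b : ℂ}
    {R : ℝ} (hR : 0 < R) (hf : ∀ᶠ i in l, DifferentiableOn ℂ (f i) (ball b R))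
    (hne : ∃ᶠ i in l, ∀ z ∈ ball b R, f i z ≠ 0)
    (hlim : TendstoLocallyUniformlyOn f g l (ball b R)) (hb : g b = 0) :
    ∀ᶠ z in 𝓝 b, g z = 0 := by
  have hg : DifferentiableOn ℂ g (ball b R) := hlim.differentiableOn hf isOpen_ball
  have han : AnalyticAt ℂ g b := hg.analyticAt (ball_mem_nhds b hR)
  rcases han.eventually_eq_zero_or_eventually_ne_zero with h0 | h0
  · exact h0
  exfalso
  -- a circle without zeros
  rw [eventually_nhdsWithin_iff, Metric.eventually_nhds_iff_ball] at h0
  obtain ⟨δ, hδ, hδ0⟩ := h0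
  set ρ : ℝ := min δ R / 2 with hρ
  have hρ0 : 0 < ρ := by
    have := lt_min hδ hR
    rw [hρ]
    linarith
  have hρδ : ρ < δ := by
    have := min_le_left δ R
    have := lt_min hδ hR
    rw [hρ]
    linarith
  have hρR : ρ < R := by
    have := min_le_right δ R
    have := lt_min hδ hR
    rw [hρ]
    linarith
  have hsub : closedBall b ρ ⊆ ball b R := closedBall_subset_ball hρR
  obtain ⟨z₀, hz₀, hmin⟩ := (isCompact_sphere b ρ).exists_isMinOn
    (NormedSpace.sphere_nonempty.2 hρ0.le)
    ((hg.continuousOn.mono (sphere_subset_closedBall.trans hsub)).norm)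
  set m : ℝ := ‖g z₀‖ with hm
  have hm0 : 0 < m := by
    rw [hm, norm_pos_iff]
    refine hδ0 z₀ ?_ ?_
    · rw [mem_ball]
      rw [mem_sphere] at hz₀
      rw [hz₀]
      exact hρδ
    · intro h1
      rw [h1, mem_sphere, dist_self] at hz₀
      exact hρ0.ne hz₀
  have hunif := (tendstoLocallyUniformlyOn_iff_forall_isCompact isOpen_ball).1 hlim
    (closedBall b ρ) hsub (isCompact_closedBall b ρ)
  rw [Metric.tendstoUniformlyOn_iff] at hunif
  have hev := (hunif (m / 4) (by positivity)).and hf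
  obtain ⟨i, hi, hi2, hfi⟩ := (hne.and_eventually hev).exists
  -- maximum principle for `1 / f i`
  have hd : DiffContOnCl ℂ (fun z => (f i z)⁻¹) (ball b ρ) := by
    refine DifferentiableOn.diffContOnCl ?_
    rw [closure_ball b hρ0.ne']
    exact (hfi.mono hsub).inv fun z hz => hi z (hsub hz)
  have hC : ∀ z ∈ frontier (ball b ρ), ‖(f i z)⁻¹‖ ≤ (3 * m / 4)⁻¹ := by
    intro z hz
    rw [frontier_ball b hρ0.ne'] at hz
    have h2 : m ≤ ‖g z‖ := hmin hz
    have h3 := hi2 z (sphere_subset_closedBall hz)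
    rw [dist_eq_norm] at h3
    have h4 : 3 * m / 4 ≤ ‖f i z‖ := by
      have h5 := norm_sub_norm_le (g z) (f i z)
      linarith
    rw [norm_inv]
    exact inv_anti₀ (by positivity) h4
  have h6 := Complex.norm_le_of_forall_mem_frontier_norm_le isBounded_ball hd hC
    (subset_closure (mem_ball_self hρ0))
  have h7 := hi2 b (mem_closedBall_self hρ0.le)
  rw [hb, dist_zero_left] at h7
  have h8 : 0 < ‖f i b‖ := norm_pos_iff.2 (hi b (mem_ball_self hR))
  rw [norm_inv] at h6
  have h9 := (inv_le_inv₀ h8 (by positivity)).1 h6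
  linarith

/-- **Hurwitz's theorem**: the limit of functions without zeros has no zeros or is zero. -/
theorem hurwitz {ι : Type*} {l : Filter ι} [l.NeBot] {U : Set ℂ} (hU : IsOpen U)
    (hUc : IsPreconnected U) {f : ι → ℂ → ℂ} {g : ℂ → ℂ}
    (hf : ∀ᶠ i in l, DifferentiableOn ℂ (f i) U) (hne : ∃ᶠ i in l, ∀ z ∈ U, f i z ≠ 0)
    (hlim : TendstoLocallyUniformlyOn f g l U) :
    (∀ z ∈ U, g z ≠ 0) ∨ ∀ z ∈ U, g z = 0 := by
  by_cases h : ∀ z ∈ U, g z ≠ 0
  · exact Or.inl h
  right
  push Not at h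
  obtain ⟨b, hbU, hb⟩ := h
  obtain ⟨R, hR, hRU⟩ := Metric.isOpen_iff.1 hU b hbU
  have h1 := hurwitz_local hR (hf.mono fun i hi => hi.mono hRU)
    (hne.mono fun i hi z hz => hi z (hRU hz)) (hlim.mono hRU) hb
  have hg : AnalyticOnNhd ℂ g U := (hlim.differentiableOn hf hU).analyticOnNhd hU
  exact hg.eqOn_zero_of_preconnected_of_eventuallyEq_zero hUc hbU h1

/-- **Hurwitz's theorem**: a nonconstant limit of injective functions is injective. -/
theorem hurwitz_injOn {ι : Type*} {l : Filter ι} [l.NeBot] {U : Set ℂ} (hU : IsOpen U)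
    (hUc : IsPreconnected U) {f : ι → ℂ → ℂ} {g : ℂ → ℂ}
    (hf : ∀ᶠ i in l, DifferentiableOn ℂ (f i) U) (hinj : ∃ᶠ i in l, InjOn (f i) U)
    (hlim : TendstoLocallyUniformlyOn f g l U) {a c : ℂ} (ha : a ∈ U) (hc : c ∈ U)
    (hac : g a ≠ g c) : InjOn g U := by
  intro p hp q hq hpq
  by_contra hne
  -- `g - g p` vanishes near `q`
  obtain ⟨R₀, hR₀, hR₀U⟩ := Metric.isOpen_iff.1 hU q hq
  set R : ℝ := min R₀ (dist p q) with hR
  have hR0 : 0 < R := lt_min hR₀ (dist_pos.2 hne)
  have hRU : ball q R ⊆ U := (ball_subset_ball (min_le_left _ _)).trans hR₀U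
  have hpR : p ∉ ball q R := by
    rw [mem_ball, not_lt]
    exact min_le_right _ _
  have hlim2 : TendstoLocallyUniformlyOn (fun i z => f i z - f i p) (fun z => g z - g p) l
      (ball q R) := by
    have h1 : Tendsto (fun i => f i p) l (𝓝 (g p)) := hlim.tendsto_at hp
    rw [tendstoLocallyUniformlyOn_iff_forall_isCompact isOpen_ball]
    intro K hK hKc
    have h2 := (tendstoLocallyUniformlyOn_iff_forall_isCompact hU).1 hlim K (hK.trans hRU) hKc
    rw [Metric.tendstoUniformlyOn_iff] at h2 ⊢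
    intro ε hε
    filter_upwards [h2 (ε / 2) (by positivity),
      (Metric.tendsto_nhds.1 h1) (ε / 2) (by positivity)] with i h3 h4 z hz
    have h5 := h3 z hz
    rw [dist_eq_norm] at h4 h5 ⊢
    have h6 : g z - g p - (f i z - f i p) = (g z - f i z) + (f i p - g p) := by ring
    rw [h6]
    refine (norm_add_le _ _).trans_lt ?_
    linarith
  have h7 := hurwitz_local (f := fun i z => f i z - f i p) (g := fun z => g z - g p) hR0
    (hf.mono fun i hi => (hi.mono hRU).sub_const _)
    (hinj.mono fun i hi z hz => by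
      intro h8
      have h9 : z = p := hi (hRU hz) hp (sub_eq_zero.1 h8)
      exact hpR (h9 ▸ hz)) hlim2 (by rw [hpq, sub_self])
  have hg : AnalyticOnNhd ℂ g U := (hlim.differentiableOn hf hU).analyticOnNhd hU
  have h10 : EqOn g (fun _ => g p) U := by
    refine hg.eqOn_of_preconnected_of_eventuallyEq analyticOnNhd_const hUc hq ?_
    filter_upwards [h7] with z hz
    exact sub_eq_zero.1 hz
  exact hac ((h10 ha).trans (h10 hc).symm)

end Pool.Agent.Helper99.CK
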