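import Mathlib

/-!
# Montel's theorem

Locally bounded families of holomorphic functions converge locally uniformly along every
ultrafilter; sequences have locally uniformly convergent subsequences.
-/

set_option autoImplicit false

namespace Pool.Agent.Helper99.CK

open Filter Topology Metric Set

/-- A bounded holomorphic function on a ball of radius `2 r` is Lipschitz on the ball of radius
`r`. -/
theorem lip_of_bound {f : ℂ → ℂ} {z₀ : ℂ} {r M : ℝ} (hr : 0 < r)
    (hf : DifferentiableOn ℂ f (closedBall z₀ (2 * r)))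
    (hM : ∀ z ∈ closedBall z₀ (2 * r), ‖f z‖ ≤ M) {x y : ℂ} (hx : x ∈ ball z₀ r)
    (hy : y ∈ ball z₀ r) : ‖f x - f y‖ ≤ M / r * ‖x - y‖ := by
  have hsub : ∀ z ∈ ball z₀ r, closedBall z r ⊆ closedBall z₀ (2 * r) := by
    intro z hz w hw
    rw [mem_closedBall] at hw ⊢
    rw [mem_ball] at hz
    calc dist w z₀ ≤ dist w z + dist z z₀ := dist_triangle _ _ _
      _ ≤ 2 * r := by linarith
  have hder : ∀ z ∈ ball z₀ r, ‖deriv f z‖ ≤ M / r := by
    intro z hz
    refine Complex.norm_deriv_le_of_forall_mem_sphere_norm_le hr ?_ fun w hw => ?_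
    · refine DifferentiableOn.diffContOnCl ?_
      rw [closure_ball z hr.ne']
      exact hf.mono (hsub z hz)
    · exact hM w (hsub z hz (sphere_subset_closedBall hw))
  have hdiff : ∀ z ∈ ball z₀ r, DifferentiableAt ℂ f z := by
    intro z hz
    refine (hf z ?_).differentiableAt ?_
    · exact ball_subset_closedBall (ball_subset_ball (by linarith) hz)
    · refine mem_of_superset (isOpen_ball.mem_nhds hz) ?_
      exact (ball_subset_ball (by linarith)).trans ball_subset_closedBall
  exact (convex_ball z₀ r).norm_image_sub_le_of_norm_deriv_le hdiff hder hy hx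

/-- **Montel's theorem**, ultrafilter form. -/
theorem montel_ultra {ι : Type*} (𝒰 : Ultrafilter ι) {U : Set ℂ} (hU : IsOpen U)
    {f : ι → ℂ → ℂ} (hf : ∀ᶠ i in (𝒰 : Filter ι), DifferentiableOn ℂ (f i) U)
    (hb : ∀ K ⊆ U, IsCompact K → ∃ M : ℝ, ∀ᶠ i in (𝒰 : Filter ι), ∀ z ∈ K, ‖f i z‖ ≤ M) :
    ∃ g : ℂ → ℂ, DifferentiableOn ℂ g U ∧ TendstoLocallyUniformlyOn f g (𝒰 : Filter ι) U := by
  classical
  -- the pointwise limit
  have hpt : ∀ z : ℂ, ∃ w : ℂ, z ∈ U → Tendsto (fun i => f i z) (𝒰 : Filter ι) (𝓝 w) := by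
    intro z
    by_cases hz : z ∈ U
    · obtain ⟨M, hM⟩ := hb {z} (singleton_subset_iff.2 hz) isCompact_singleton
      have h1 : (closedBall (0 : ℂ) M) ∈ (𝒰.map fun i => f i z) := by
        rw [Ultrafilter.mem_map]
        filter_upwards [hM] with i hi
        rw [mem_preimage, mem_closedBall, dist_zero_right]
        exact hi z rfl
      obtain ⟨w, -, hw⟩ := (isCompact_closedBall (0 : ℂ) M).ultrafilter_le_nhds
        (𝒰.map fun i => f i z) (le_principal_iff.2 h1)
      exact ⟨w, fun _ => hw⟩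
    · exact ⟨0, fun h => absurd h hz⟩
  choose g hg using hpt
  have hlu : TendstoLocallyUniformlyOn f g (𝒰 : Filter ι) U := by
    rw [Metric.tendstoLocallyUniformlyOn_iff]
    intro ε hε x hx
    obtain ⟨R, hR, hRU⟩ := Metric.isOpen_iff.1 hU x hx
    set r : ℝ := R / 4 with hr
    have hr0 : 0 < r := by positivity
    have hKU : closedBall x (2 * r) ⊆ U := by
      refine (closedBall_subset_ball ?_).trans hRU
      rw [hr]
      linarith
    obtain ⟨M, hM⟩ := hb _ hKU (isCompact_closedBall x (2 * r))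
    set M' : ℝ := max M 1 with hM'
    have hM'0 : 0 < M' := lt_max_of_lt_right one_pos
    set δ : ℝ := min r (ε * r / (4 * M')) with hδ
    have hδ0 : 0 < δ := lt_min hr0 (by positivity)
    have hδr : δ ≤ r := min_le_left _ _
    have hδε : M' / r * δ ≤ ε / 4 := by
      have h2 : δ ≤ ε * r / (4 * M') := min_le_right _ _
      calc M' / r * δ ≤ M' / r * (ε * r / (4 * M')) :=
            mul_le_mul_of_nonneg_left h2 (by positivity)
        _ = ε / 4 := by field_simp
    refine ⟨ball x δ, mem_nhdsWithin_of_mem_nhds (ball_mem_nhds x hδ0), ?_⟩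
    -- the functions vary little on the small ball
    have hvar : ∀ᶠ i in (𝒰 : Filter ι), ∀ y ∈ ball x δ, ‖f i y - f i x‖ ≤ ε / 4 := by
      filter_upwards [hf, hM] with i hi hMi y hy
      have hyr : y ∈ ball x r := ball_subset_ball hδr hy
      have h2 := lip_of_bound hr0 (hi.mono hKU) (fun z hz => (hMi z hz).trans (le_max_left M 1))
        hyr (mem_ball_self hr0)
      refine h2.trans (le_trans (mul_le_mul_of_nonneg_left ?_ (by positivity)) hδε)
      rw [mem_ball, dist_eq_norm] at hy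
      exact hy.le
    have hlim : ∀ y ∈ ball x δ, ‖g y - g x‖ ≤ ε / 4 := by
      intro y hy
      have hyU : y ∈ U := by
        refine hKU (ball_subset_closedBall (ball_subset_ball ?_ hy))
        linarith
      have h2 : Tendsto (fun i => ‖f i y - f i x‖) (𝒰 : Filter ι) (𝓝 ‖g y - g x‖) :=
        ((hg y hyU).sub (hg x hx)).norm
      exact le_of_tendsto h2 (hvar.mono fun i hi => hi y hy)
    have hx' : ∀ᶠ i in (𝒰 : Filter ι), dist (f i x) (g x) < ε / 4 :=
      (Metric.tendsto_nhds.1 (hg x hx)) _ (by positivity)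
    filter_upwards [hvar, hx'] with i hi hix y hy
    have h3 := hi y hy
    have h4 := hlim y hy
    rw [dist_eq_norm] at hix ⊢
    calc ‖g y - f i y‖ = ‖(g y - g x) - (f i x - g x) - (f i y - f i x)‖ := by ring_nf
      _ ≤ ‖g y - g x‖ + ‖f i x - g x‖ + ‖f i y - f i x‖ := by
        refine (norm_sub_le _ _).trans ?_
        have := norm_sub_le (g y - g x) (f i x - g x)
        linarith
      _ < ε := by linarith
  exact ⟨g, hlu.differentiableOn hf hU, hlu⟩

/-- **Montel's theorem**, sequential form. -/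
theorem montel {U : Set ℂ} (hU : IsOpen U) {f : ℕ → ℂ → ℂ}
    (hf : ∀ n, DifferentiableOn ℂ (f n) U)
    (hb : ∀ K ⊆ U, IsCompact K → ∃ M : ℝ, ∀ n, ∀ z ∈ K, ‖f n z‖ ≤ M) :
    ∃ (φ : ℕ → ℕ) (g : ℂ → ℂ), StrictMono φ ∧ DifferentiableOn ℂ g U ∧
      TendstoLocallyUniformlyOn (fun n => f (φ n)) g atTop U := by
  classical
  obtain ⟨g, hg, hlu⟩ := montel_ultra (hyperfilter ℕ) hU (f := f) (Eventually.of_forall hf)
    (fun K hK hKc => (hb K hK hKc).imp fun M hM => Eventually.of_forall hM)
  -- a compact exhaustion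
  set K : ℕ → Set ℂ := fun n => closedBall 0 n ∩ {z | 1 / ((n : ℝ) + 1) ≤ infDist z Uᶜ} with hK
  have hKc : ∀ n, IsCompact (K n) := by
    intro n
    refine (isCompact_closedBall _ _).inter_right ?_
    exact isClosed_le continuous_const (continuous_infDist_pt _)
  by_cases hUc : (Uᶜ : Set ℂ).Nonempty
  swap
  · -- `U` is the whole plane
    have hUu : U = univ := by
      rw [← compl_empty_iff]
      exact not_nonempty_iff_eq_empty.1 hUc
    have h1 : ∀ n : ℕ, ∃ᶠ i in (hyperfilter ℕ : Filter ℕ), ∀ z ∈ closedBall (0 : ℂ) n,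
        dist (g z) (f i z) < 1 / ((n : ℝ) + 1) := by
      intro n
      have h2 := (tendstoLocallyUniformlyOn_iff_forall_isCompact hU).1 hlu
        (closedBall (0 : ℂ) n) (by rw [hUu]; exact subset_univ _) (isCompact_closedBall _ _)
      rw [Metric.tendstoUniformlyOn_iff] at h2
      exact (h2 _ (by positivity)).frequently
    have h3 : ∀ n : ℕ, ∃ᶠ i in (atTop : Filter ℕ), ∀ z ∈ closedBall (0 : ℂ) n,
        dist (g z) (f i z) < 1 / ((n : ℝ) + 1) := by
      intro n
      refine (h1 n).filter_mono ?_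
      rw [← Nat.cofinite_eq_atTop]
      exact hyperfilter_le_cofinite
    obtain ⟨φ, hφ, hφ2⟩ := extraction_forall_of_frequently h3
    refine ⟨φ, g, hφ, hg, ?_⟩
    rw [tendstoLocallyUniformlyOn_iff_forall_isCompact hU]
    intro C _ hC
    rw [Metric.tendstoUniformlyOn_iff]
    intro ε hε
    obtain ⟨R, hR⟩ := hC.isBounded.subset_closedBall 0
    obtain ⟨N₁, hN₁⟩ := exists_nat_ge R
    obtain ⟨N₂, hN₂⟩ := exists_nat_ge (1 / ε)
    filter_upwards [eventually_ge_atTop (max N₁ N₂)] with n hn z hz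
    have hn1 : R ≤ n := hN₁.trans (by exact_mod_cast (le_max_left _ _).trans hn)
    have hn2 : 1 / ε ≤ n := hN₂.trans (by exact_mod_cast (le_max_right _ _).trans hn)
    refine (hφ2 n z (closedBall_subset_closedBall hn1 (hR hz))).trans_le ?_
    rw [div_le_iff₀ (by positivity)]
    rw [div_le_iff₀ hε] at hn2
    nlinarith
  · have hKU : ∀ n, K n ⊆ U := by
      intro n z hz
      by_contra hzU
      have h1 : infDist z Uᶜ = 0 := infDist_zero_of_mem hzU
      have h2 : 1 / ((n : ℝ) + 1) ≤ infDist z Uᶜ := hz.2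
      rw [h1] at h2
      have : (0 : ℝ) < 1 / ((n : ℝ) + 1) := by positivity
      linarith
    have h1 : ∀ n : ℕ, ∃ᶠ i in (atTop : Filter ℕ), ∀ z ∈ K n,
        dist (g z) (f i z) < 1 / ((n : ℝ) + 1) := by
      intro n
      have h2 := (tendstoLocallyUniformlyOn_iff_forall_isCompact hU).1 hlu (K n) (hKU n) (hKc n)
      rw [Metric.tendstoUniformlyOn_iff] at h2
      have h3 : ∀ᶠ i in (hyperfilter ℕ : Filter ℕ), ∀ z ∈ K n,
        dist (g z) (f i z) < 1 / ((n : ℝ) + 1) := h2 _ (by positivity)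
      refine h3.frequently.filter_mono ?_
      rw [← Nat.cofinite_eq_atTop]
      exact hyperfilter_le_cofinite
    obtain ⟨φ, hφ, hφ2⟩ := extraction_forall_of_frequently h1
    refine ⟨φ, g, hφ, hg, ?_⟩
    rw [tendstoLocallyUniformlyOn_iff_forall_isCompact hU]
    intro C hCU hC
    rw [Metric.tendstoUniformlyOn_iff]
    intro ε hε
    -- `C ⊆ K n` for large `n`
    obtain ⟨R, hR⟩ := hC.isBounded.subset_closedBall 0
    obtain ⟨δ, hδ, hCδ⟩ : ∃ δ : ℝ, 0 < δ ∧ ∀ z ∈ C, δ ≤ infDist z Uᶜ := by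
      rcases C.eq_empty_or_nonempty with hCe | hCn
      · exact ⟨1, one_pos, fun z hz => by rw [hCe] at hz; exact absurd hz (notMem_empty z)⟩
      · obtain ⟨z₀, hz₀, hmin⟩ := hC.exists_isMinOn hCn
          (continuous_infDist_pt (Uᶜ : Set ℂ)).continuousOn
        refine ⟨infDist z₀ Uᶜ, ?_, fun z hz => hmin hz⟩
        have h2 : z₀ ∉ closure (Uᶜ : Set ℂ) := by
          rw [hU.isClosed_compl.closure_eq]
          exact fun h => h (hCU hz₀)
        exact (infDist_pos_iff_notMem_closure hUc).1 h2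
    obtain ⟨N₁, hN₁⟩ := exists_nat_ge R
    obtain ⟨N₂, hN₂⟩ := exists_nat_ge (1 / ε)
    obtain ⟨N₃, hN₃⟩ := exists_nat_ge (1 / δ)
    filter_upwards [eventually_ge_atTop (max N₁ (max N₂ N₃))] with n hn z hz
    have hn1 : R ≤ n := hN₁.trans (by exact_mod_cast (le_max_left _ _).trans hn)
    have hn2 : 1 / ε ≤ n := hN₂.trans
      (by exact_mod_cast ((le_max_left _ _).trans (le_max_right _ _)).trans hn)
    have hn3 : 1 / δ ≤ n := hN₃.trans
      (by exact_mod_cast ((le_max_right _ _).trans (le_max_right _ _)).trans hn)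
    have hzK : z ∈ K n := by
      refine ⟨closedBall_subset_closedBall hn1 (hR hz), ?_⟩
      refine le_trans ?_ (hCδ z hz)
      rw [div_le_iff₀ (by positivity)]
      rw [div_le_iff₀ hδ] at hn3
      nlinarith
    refine (hφ2 n z hzK).trans_le ?_
    rw [div_le_iff₀ (by positivity)]
    rw [div_le_iff₀ hε] at hn2
    nlinarith

end Pool.Agent.Helper99.CK
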