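import Mathlib
set_option autoImplicit false
open Complex MeasureTheory Metric Set Filter Topology
open scoped Real ComplexConjugate

/-!
# Project CK: the divergence theorem for `W ‖F‖^(-k) v` with a radial weight of compact support
-/

namespace Pool.Agent.Helper99.CK

/-- a radial weight of class `C¹` supported in an annulus -/
structure Wt (w w' : ℝ → ℝ) (r₁ r₂ : ℝ) : Prop where
  pos : 0 < r₁
  hd : ∀ x, HasDerivAt w (w' x) x
  cont : Continuous w'
  supp : ∀ x, x ∉ Icc r₁ r₂ → w x = 0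

theorem Wt.contw {w w' : ℝ → ℝ} {r₁ r₂ : ℝ} (h : Wt w w' r₁ r₂) : Continuous w :=
  continuous_iff_continuousAt.mpr fun x => (h.hd x).continuousAt

theorem Wt.supp' {w w' : ℝ → ℝ} {r₁ r₂ : ℝ} (h : Wt w w' r₁ r₂) :
    ∀ x, x ∉ Icc r₁ r₂ → w' x = 0 := by
  intro x hx
  have h1 : w =ᶠ[𝓝 x] fun _ => 0 := by
    filter_upwards [isClosed_Icc.isOpen_compl.mem_nhds hx] with y hy
    exact h.supp y hy
  exact (h.hd x).unique ((hasDerivAt_const x (0:ℝ)).congr_of_eventuallyEq h1)

/-- the closed annulus -/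
def Ann (r₁ r₂ : ℝ) : Set ℂ := {z | r₁ ≤ ‖z‖ ∧ ‖z‖ ≤ r₂}

theorem isClosed_Ann (r₁ r₂ : ℝ) : IsClosed (Ann r₁ r₂) :=
  (isClosed_le continuous_const continuous_norm).inter
    (isClosed_le continuous_norm continuous_const)

theorem isCompact_Ann (r₁ r₂ : ℝ) : IsCompact (Ann r₁ r₂) := by
  apply (isCompact_closedBall (0:ℂ) r₂).of_isClosed_subset (isClosed_Ann _ _)
  intro z hz
  simpa using hz.2

theorem measurableSet_Ann (r₁ r₂ : ℝ) : MeasurableSet (Ann r₁ r₂) :=
  (isClosed_Ann r₁ r₂).measurableSet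

variable {w w' : ℝ → ℝ} {r₁ r₂ : ℝ}

theorem Wt.zero_of_notMem (h : Wt w w' r₁ r₂) {z : ℂ} (hz : z ∉ Ann r₁ r₂) : w ‖z‖ = 0 :=
  h.supp _ fun h1 => hz ⟨h1.1, h1.2⟩

theorem Wt.zero_of_notMem' (h : Wt w w' r₁ r₂) {z : ℂ} (hz : z ∉ Ann r₁ r₂) : w' ‖z‖ = 0 :=
  h.supp' _ fun h1 => hz ⟨h1.1, h1.2⟩

theorem Wt.tsupport_subset (h : Wt w w' r₁ r₂) :
    tsupport (fun z : ℂ => w ‖z‖) ⊆ Ann r₁ r₂ := by
  apply closure_minimal _ (isClosed_Ann r₁ r₂)
  intro z hz
  by_contra h1
  exact hz (h.zero_of_notMem h1)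

/-- the derivative of the radial weight -/
theorem Wt.hasFDerivAt (h : Wt w w' r₁ r₂) (z : ℂ) :
    HasFDerivAt (fun z : ℂ => w ‖z‖) ((w' ‖z‖ / ‖z‖) • (innerSL ℝ z : ℂ →L[ℝ] ℝ)) z := by
  by_cases hz : z = 0
  · subst hz
    have h1 : (fun z : ℂ => w ‖z‖) =ᶠ[𝓝 0] fun _ => 0 := by
      filter_upwards [ball_mem_nhds (0:ℂ) h.pos] with y hy
      apply h.zero_of_notMem
      intro h2
      have := h2.1
      rw [mem_ball, dist_zero_right] at hy
      linarith
    have h2 : w' ‖(0:ℂ)‖ = 0 := by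
      apply h.zero_of_notMem'
      intro h2
      have := h2.1
      rw [norm_zero] at this
      exact absurd h.pos (not_lt.mpr this)
    rw [h2]
    simp only [zero_div, zero_smul]
    exact (hasFDerivAt_const (0:ℝ) (0:ℂ)).congr_of_eventuallyEq h1
  · have hn : ‖z‖ ≠ 0 := norm_ne_zero_iff.mpr hz
    have h1 : HasFDerivAt (fun z : ℂ => ‖z‖) ((‖z‖⁻¹) • (innerSL ℝ z : ℂ →L[ℝ] ℝ)) z := by
      have h2 := (hasStrictFDerivAt_norm_sq (F := ℂ) z).hasFDerivAt
      have h3 := h2.sqrt (by positivity)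
      have e : (fun y : ℂ => Real.sqrt (‖y‖ ^ 2)) = fun z : ℂ => ‖z‖ := by
        funext y
        exact Real.sqrt_sq (norm_nonneg y)
      rw [e] at h3
      refine h3.congr_fderiv ?_
      rw [Real.sqrt_sq (norm_nonneg z), ← Nat.cast_smul_eq_nsmul ℝ, smul_smul]
      congr 1
      field_simp
      norm_num
    have h2 := (h.hd ‖z‖).comp_hasFDerivAt z h1
    refine h2.congr_fderiv ?_
    rw [smul_smul, div_eq_mul_inv]

/-- integrability of a function continuous on the annulus times the weight -/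
theorem Wt.integrable_of {g : ℂ → ℝ} {u : ℝ → ℝ} (hu : Continuous u)
    (hs : ∀ z : ℂ, z ∉ Ann r₁ r₂ → u ‖z‖ = 0) (hg : ContinuousOn g (Ann r₁ r₂)) :
    Integrable (fun z : ℂ => u ‖z‖ * g z) := by
  have h1 : ContinuousOn (fun z : ℂ => u ‖z‖ * g z) (Ann r₁ r₂) :=
    (hu.comp continuous_norm).continuousOn.mul hg
  have h2 := h1.integrableOn_compact (isCompact_Ann r₁ r₂) (μ := volume)
  have h3 : (fun z : ℂ => u ‖z‖ * g z) =
      (Ann r₁ r₂).indicator (fun z : ℂ => u ‖z‖ * g z) := by
    funext z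
    by_cases hz : z ∈ Ann r₁ r₂
    · rw [indicator_of_mem hz]
    · rw [indicator_of_notMem hz, hs z hz, zero_mul]
  rw [h3]
  exact (integrable_indicator_iff (measurableSet_Ann r₁ r₂)).mpr h2

/-- integration by parts in a fixed direction -/
theorem Wt.parts (h : Wt w w' r₁ r₂) {g g' : ℂ → ℝ} {e : ℂ}
    (hg : ∀ z ∈ Ann r₁ r₂, HasLineDerivAt ℝ g (g' z) z e)
    (cg : ContinuousOn g (Ann r₁ r₂)) (cg' : ContinuousOn g' (Ann r₁ r₂)) :
    ∫ z : ℂ, w ‖z‖ * g' z = - ∫ z : ℂ, (w' ‖z‖ * ((conj z * e).re / ‖z‖)) * g z := by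
  have hin : ∀ z : ℂ, inner ℝ z e = (conj z * e).re := fun z => by
    rw [Complex.inner, mul_comm]
  have cf : ContinuousOn (fun z : ℂ => (conj z * e).re / ‖z‖) (Ann r₁ r₂) := by
    apply ContinuousOn.div
    · exact (Complex.continuous_re.comp ((continuous_conj).mul continuous_const)).continuousOn
    · exact continuous_norm.continuousOn
    · intro z hz h0
      have := hz.1
      rw [h0] at this
      exact absurd h.pos (not_lt.mpr this)
  have i1 : Integrable (fun z : ℂ => w ‖z‖ * g' z) :=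
    Wt.integrable_of h.contw (fun z hz => h.zero_of_notMem hz) cg'
  have i2 : Integrable (fun z : ℂ => w ‖z‖ * g z) :=
    Wt.integrable_of h.contw (fun z hz => h.zero_of_notMem hz) cg
  have i3 : Integrable (fun z : ℂ => w' ‖z‖ * ((conj z * e).re / ‖z‖ * g z)) :=
    Wt.integrable_of h.cont (fun z hz => h.zero_of_notMem' hz) (cf.mul cg)
  have key := integral_bilinear_hasLineDerivAt_right_eq_neg_left_of_integrable
    (μ := (volume : Measure ℂ)) (f := fun z : ℂ => w ‖z‖)
    (f' := fun z : ℂ => w' ‖z‖ * ((conj z * e).re / ‖z‖)) (g := g) (g' := g') (v := e)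
    (B := ContinuousLinearMap.mul ℝ ℝ) (by simpa only [ContinuousLinearMap.mul_apply', mul_assoc] using i3)
    (by simpa using i1) (by simpa using i2) (by
      intro z _
      have h1 := (h.hasFDerivAt z).hasLineDerivAt e
      convert h1 using 1
      simp only [smul_apply, innerSL_apply_apply, smul_eq_mul]
      rw [hin]
      ring) (by
      intro z hz
      exact hg z (h.tsupport_subset hz))
  simpa using key

/-- the derivative of `‖G‖^(-k)` along a curve -/
theorem hasDerivAt_norm_rpow {G : ℝ → ℂ} {G' : ℂ} {t : ℝ} (k : ℝ) (hG : HasDerivAt G G' t)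
    (h0 : G t ≠ 0) :
    HasDerivAt (fun t => ‖G t‖ ^ (-k)) (-k * ‖G t‖ ^ (-k) * (G' / G t).re) t := by
  have hn : 0 < ‖G t‖ := norm_pos_iff.mpr h0
  have h1 := hG.norm_sq
  have h2 := h1.rpow_const (p := -k / 2) (Or.inl (by positivity))
  have e : (fun t => (‖G t‖ ^ 2) ^ (-k / 2)) = fun t => ‖G t‖ ^ (-k) := by
    funext s
    rw [← Real.rpow_natCast, ← Real.rpow_mul (norm_nonneg _)]
    congr 1
    push_cast
    ring
  rw [e] at h2
  refine h2.congr_deriv ?_
  have h3 : (‖G t‖ ^ 2) ^ (-k / 2 - 1) = ‖G t‖ ^ (-k) / ‖G t‖ ^ 2 := by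
    rw [Real.rpow_sub_one (by positivity), ← Real.rpow_natCast, ← Real.rpow_mul (norm_nonneg _)]
    congr 2
    push_cast
    ring
  have h4 : inner ℝ (G t) G' = ‖G t‖ ^ 2 * (G' / G t).re := by
    rw [Complex.inner]
    have h5 : G' / G t = G' * conj (G t) / ((‖G t‖ ^ 2 : ℝ) : ℂ) := by
      have h6 : ((‖G t‖ ^ 2 : ℝ) : ℂ) = G t * conj (G t) := by
        rw [Complex.mul_conj, Complex.normSq_eq_norm_sq]
      have h7 : conj (G t) ≠ 0 := (map_ne_zero _).mpr h0
      rw [h6]
      field_simp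
    rw [h5, Complex.div_ofReal_re]
    field_simp
  rw [h3, h4]
  field_simp

/-- the divergence theorem for `w ‖F‖^(-k) v` -/
theorem Wt.gauss (h : Wt w w' r₁ r₂) {F v : ℂ → ℂ} {U : Set ℂ} (hU : IsOpen U)
    (hAU : Ann r₁ r₂ ⊆ U) (hF : DifferentiableOn ℂ F U) (hv : DifferentiableOn ℂ v U)
    (h0 : ∀ z ∈ Ann r₁ r₂, F z ≠ 0) (k : ℝ) :
    ∫ z : ℂ, w ‖z‖ * (‖F z‖ ^ (-k) * (k * (v z * (deriv F z / F z)).re)) =
      ∫ z : ℂ, (w ‖z‖ * (‖F z‖ ^ (-k) * (2 * (deriv v z).re)) +
        w' ‖z‖ * (‖F z‖ ^ (-k) * ((conj z * v z).re / ‖z‖))) := by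
  have cF : ContinuousOn F (Ann r₁ r₂) := hF.continuousOn.mono hAU
  have cv : ContinuousOn v (Ann r₁ r₂) := hv.continuousOn.mono hAU
  have cdF : ContinuousOn (deriv F) (Ann r₁ r₂) := (hF.deriv hU).continuousOn.mono hAU
  have cdv : ContinuousOn (deriv v) (Ann r₁ r₂) := (hv.deriv hU).continuousOn.mono hAU
  have cP : ContinuousOn (fun z => ‖F z‖ ^ (-k)) (Ann r₁ r₂) :=
    cF.norm.rpow_const fun z hz => Or.inl (norm_ne_zero_iff.mpr (h0 z hz))
  have cq : ContinuousOn (fun z => deriv F z / F z) (Ann r₁ r₂) := cdF.div cF h0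
  have hne : ∀ z ∈ Ann r₁ r₂, ‖z‖ ≠ 0 := by
    intro z hz h1
    have := hz.1
    rw [h1] at this
    exact absurd h.pos (not_lt.mpr this)
  have cz : ContinuousOn (fun z : ℂ => ‖z‖) (Ann r₁ r₂) := continuous_norm.continuousOn
  -- the integration by parts in direction `e`
  have key : ∀ e : ℂ, ‖e‖ = 1 →
      ∫ z : ℂ, w ‖z‖ * (-k * ‖F z‖ ^ (-k) * (deriv F z * e / F z).re * (conj e * v z).re +
        ‖F z‖ ^ (-k) * (deriv v z).re) =
      - ∫ z : ℂ, (w' ‖z‖ * ((conj z * e).re / ‖z‖)) * (‖F z‖ ^ (-k) * (conj e * v z).re) := by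
    intro e he
    apply h.parts
    · intro z hz
      have hz' : U ∈ 𝓝 z := hU.mem_nhds (hAU hz)
      have h1 : HasDerivAt (fun t : ℝ => z + t • e) e 0 := by
        have := ((hasDerivAt_id (0:ℝ)).smul_const e).const_add z
        simpa using this
      have h2 : HasDerivAt F (deriv F z) (z + (0:ℝ) • e) := by
        rw [zero_smul, add_zero]
        exact (hF.differentiableAt hz').hasDerivAt
      have h3 : HasDerivAt v (deriv v z) (z + (0:ℝ) • e) := by
        rw [zero_smul, add_zero]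
        exact (hv.differentiableAt hz').hasDerivAt
      have h4 : HasDerivAt (fun t : ℝ => F (z + t • e)) (deriv F z * e) 0 :=
        HasDerivAt.comp (0:ℝ) h2 h1
      have h5 : HasDerivAt (fun t : ℝ => v (z + t • e)) (deriv v z * e) 0 :=
        HasDerivAt.comp (0:ℝ) h3 h1
      have h6 := hasDerivAt_norm_rpow k h4 (by
        rw [zero_smul, add_zero]; exact h0 z hz)
      have h7 : HasDerivAt (fun t : ℝ => (conj e * v (z + t • e)).re)
          (conj e * (deriv v z * e)).re 0 :=
        (Complex.reCLM.hasFDerivAt.comp_hasDerivAt (0:ℝ) (h5.const_mul (conj e)))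
      have h8 := h6.mul h7
      unfold HasLineDerivAt
      refine h8.congr_deriv ?_
      rw [zero_smul, add_zero]
      have h9 : conj e * (deriv v z * e) = deriv v z := by
        have h10 : conj e * e = 1 := by
          rw [mul_comm, Complex.mul_conj, Complex.normSq_eq_norm_sq, he]
          norm_num
        linear_combination (deriv v z) * h10
      rw [h9]
    · exact cP.mul (Complex.continuous_re.comp_continuousOn (continuousOn_const.mul cv))
    · apply ContinuousOn.add
      · apply ContinuousOn.mul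
        · exact (continuousOn_const.mul cP).mul
            (Complex.continuous_re.comp_continuousOn ((cdF.mul continuousOn_const).div cF h0))
        · exact Complex.continuous_re.comp_continuousOn (continuousOn_const.mul cv)
      · exact cP.mul (Complex.continuous_re.comp_continuousOn cdv)
  have k1 := key 1 (by simp)
  have kI := key I (by simp)
  have cre : ∀ e : ℂ, ContinuousOn (fun z => (conj e * v z).re) (Ann r₁ r₂) := fun e =>
    Complex.continuous_re.comp_continuousOn (continuousOn_const.mul cv)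
  have cB : ∀ e : ℂ, ContinuousOn (fun z => -k * ‖F z‖ ^ (-k) * (deriv F z * e / F z).re *
      (conj e * v z).re + ‖F z‖ ^ (-k) * (deriv v z).re) (Ann r₁ r₂) := fun e =>
    (((continuousOn_const.mul cP).mul
            (Complex.continuous_re.comp_continuousOn ((cdF.mul continuousOn_const).div cF h0))).mul
      (cre e)).add (cP.mul (Complex.continuous_re.comp_continuousOn cdv))
  have cz' : ∀ e : ℂ, ContinuousOn (fun z : ℂ => (conj z * e).re / ‖z‖) (Ann r₁ r₂) := fun e =>
    ((Complex.continuous_re.comp (continuous_conj.mul continuous_const)).continuousOn).div cz hne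
  have i1 : ∀ e : ℂ, Integrable (fun z : ℂ => w ‖z‖ * (-k * ‖F z‖ ^ (-k) *
      (deriv F z * e / F z).re * (conj e * v z).re + ‖F z‖ ^ (-k) * (deriv v z).re)) := fun e =>
    Wt.integrable_of h.contw (fun z hz => h.zero_of_notMem hz) (cB e)
  have i2 : ∀ e : ℂ, Integrable (fun z : ℂ => (w' ‖z‖ * ((conj z * e).re / ‖z‖)) *
      (‖F z‖ ^ (-k) * (conj e * v z).re)) := fun e => by
    have := Wt.integrable_of h.cont (fun z hz => h.zero_of_notMem' hz)
      ((cz' e).mul (cP.mul (cre e)))
    refine this.congr (Eventually.of_forall fun z => ?_)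
    simp only [Pi.mul_apply]
    ring
  have i3 : Integrable (fun z : ℂ => w ‖z‖ * (‖F z‖ ^ (-k) * (k * (v z *
      (deriv F z / F z)).re))) :=
    Wt.integrable_of h.contw (fun z hz => h.zero_of_notMem hz)
      (cP.mul (continuousOn_const.mul (Complex.continuous_re.comp_continuousOn (cv.mul cq))))
  have hs : ∫ z : ℂ, (w ‖z‖ * (‖F z‖ ^ (-k) * (2 * (deriv v z).re)) -
      w ‖z‖ * (‖F z‖ ^ (-k) * (k * (v z * (deriv F z / F z)).re))) =
      - ∫ z : ℂ, w' ‖z‖ * (‖F z‖ ^ (-k) * ((conj z * v z).re / ‖z‖)) := by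
    calc _ = ∫ z : ℂ, ((w ‖z‖ * (-k * ‖F z‖ ^ (-k) * (deriv F z * 1 / F z).re *
          (conj 1 * v z).re + ‖F z‖ ^ (-k) * (deriv v z).re)) +
          (w ‖z‖ * (-k * ‖F z‖ ^ (-k) * (deriv F z * I / F z).re *
          (conj I * v z).re + ‖F z‖ ^ (-k) * (deriv v z).re))) := by
          apply integral_congr_ae
          refine Eventually.of_forall fun z => ?_
          beta_reduce
          have e1 : (v z * (deriv F z / F z)).re =
              (deriv F z * 1 / F z).re * (conj 1 * v z).re +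
              (deriv F z * I / F z).re * (conj I * v z).re := by
            have e2 : deriv F z * I / F z = (deriv F z / F z) * I := by ring
            have e3 : deriv F z * 1 / F z = (deriv F z / F z) := by ring
            rw [e2, e3]
            simp [Complex.mul_re]
            ring
          rw [e1]
          ring
      _ = _ := by
          rw [integral_add (i1 1) (i1 I), k1, kI, ← neg_add, ← integral_add (i2 1) (i2 I)]
          congr 1
          apply integral_congr_ae
          refine Eventually.of_forall fun z => ?_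
          beta_reduce
          have e1 : (conj z * v z).re = (conj z * 1).re * (conj 1 * v z).re +
              (conj z * I).re * (conj I * v z).re := by
            simp [Complex.mul_re]
          rw [e1]
          ring
  have i4 : Integrable (fun z : ℂ => w ‖z‖ * (‖F z‖ ^ (-k) * (2 * (deriv v z).re))) :=
    Wt.integrable_of h.contw (fun z hz => h.zero_of_notMem hz)
      (cP.mul (continuousOn_const.mul (Complex.continuous_re.comp_continuousOn cdv)))
  have i5 : Integrable (fun z : ℂ => w' ‖z‖ * (‖F z‖ ^ (-k) * ((conj z * v z).re / ‖z‖))) :=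
    Wt.integrable_of h.cont (fun z hz => h.zero_of_notMem' hz)
      (cP.mul ((Complex.continuous_re.comp_continuousOn
        (continuous_conj.continuousOn.mul cv)).div cz hne))
  rw [integral_sub i4 i3] at hs
  rw [integral_add i4 i5]
  linarith

end Pool.Agent.Helper99.CK
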