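import Pool.Agent.Helper99.CK.Crit
set_option autoImplicit false
open Complex MeasureTheory Metric Set Filter Topology
open scoped Real ComplexConjugate

/-!
# Project CK: general weights, uniform version of the critical equation for near-maximisers
-/

namespace Pool.Agent.Helper99.CK

open Pool.Agent.Helper39.Area Pool.Agent.Helper52.EK Pool.Agent.Helper5.CK

/-- a weight of class `C¹` with gradient `g`, supported in a closed annulus -/
structure WtG (W : ℂ → ℝ) (g : ℂ → ℂ) (r₁ r₂ : ℝ) : Prop where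
  pos : 0 < r₁
  hd : ∀ z, HasFDerivAt W ((innerSL ℝ (g z) : ℂ →L[ℝ] ℝ)) z
  cont : Continuous g
  supp : ∀ z, z ∉ Ann r₁ r₂ → W z = 0

variable {W : ℂ → ℝ} {g : ℂ → ℂ} {r₁ r₂ : ℝ} {β : ℂ → ℂ} {p τ z : ℂ} {k : ℝ}

theorem inner_eq (a b : ℂ) : inner ℝ a b = (conj a * b).re := by
  rw [Complex.inner, mul_comm]

theorem WtG.contW (h : WtG W g r₁ r₂) : Continuous W :=
  continuous_iff_continuousAt.mpr fun x => (h.hd x).continuousAt

theorem WtG.supp' (h : WtG W g r₁ r₂) : ∀ z, z ∉ Ann r₁ r₂ → g z = 0 := by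
  intro z hz
  have h1 : W =ᶠ[𝓝 z] fun _ => 0 := by
    filter_upwards [(isClosed_Ann r₁ r₂).isOpen_compl.mem_nhds hz] with y hy
    exact h.supp y hy
  have h2 := (h.hd z).unique ((hasFDerivAt_const (0:ℝ) z).congr_of_eventuallyEq h1)
  have h3 : (innerSL ℝ (g z) : ℂ →L[ℝ] ℝ) (g z) = 0 := by rw [h2]; rfl
  rw [innerSL_apply_apply] at h3
  exact inner_self_eq_zero.mp h3

/-- integrability of a function supported in the annulus and continuous there -/
theorem integrable_ann {E : Type*} [NormedAddCommGroup E] [NormedSpace ℝ E] {f : ℂ → E}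
    (hf : ContinuousOn f (Ann r₁ r₂)) (hs : ∀ z, z ∉ Ann r₁ r₂ → f z = 0) : Integrable f := by
  have h2 := hf.integrableOn_compact (isCompact_Ann r₁ r₂) (μ := volume)
  have h3 : f = (Ann r₁ r₂).indicator f := by
    funext z
    by_cases hz : z ∈ Ann r₁ r₂
    · rw [indicator_of_mem hz]
    · rw [indicator_of_notMem hz, hs z hz]
  rw [h3]
  exact (integrable_indicator_iff (measurableSet_Ann r₁ r₂)).mpr h2

theorem WtG.tsupport_subset (h : WtG W g r₁ r₂) : tsupport W ⊆ Ann r₁ r₂ := by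
  apply closure_minimal _ (isClosed_Ann r₁ r₂)
  intro z hz
  by_contra h1
  exact hz (h.supp z h1)

/-- integration by parts in a fixed direction -/
theorem WtG.parts (h : WtG W g r₁ r₂) {f f' : ℂ → ℝ} {e : ℂ}
    (hf : ∀ z ∈ Ann r₁ r₂, HasLineDerivAt ℝ f (f' z) z e)
    (cf : ContinuousOn f (Ann r₁ r₂)) (cf' : ContinuousOn f' (Ann r₁ r₂)) :
    ∫ z : ℂ, W z * f' z = - ∫ z : ℂ, (conj (g z) * e).re * f z := by
  have cg : ContinuousOn (fun z : ℂ => (conj (g z) * e).re) (Ann r₁ r₂) :=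
    (Complex.continuous_re.comp ((continuous_conj.comp h.cont).mul continuous_const)).continuousOn
  have i1 : Integrable (fun z : ℂ => W z * f' z) :=
    integrable_ann (h.contW.continuousOn.mul cf') fun z hz => by rw [h.supp z hz, zero_mul]
  have i2 : Integrable (fun z : ℂ => W z * f z) :=
    integrable_ann (h.contW.continuousOn.mul cf) fun z hz => by rw [h.supp z hz, zero_mul]
  have i3 : Integrable (fun z : ℂ => (conj (g z) * e).re * f z) :=
    integrable_ann (cg.mul cf) fun z hz => by rw [h.supp' z hz]; simp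
  have key := integral_bilinear_hasLineDerivAt_right_eq_neg_left_of_integrable
    (μ := (volume : Measure ℂ)) (f := W)
    (f' := fun z : ℂ => (conj (g z) * e).re) (g := f) (g' := f') (v := e)
    (B := ContinuousLinearMap.mul ℝ ℝ) (by simpa only [ContinuousLinearMap.mul_apply'] using i3)
    (by simpa only [ContinuousLinearMap.mul_apply'] using i1)
    (by simpa only [ContinuousLinearMap.mul_apply'] using i2) (by
      intro z _
      have h1 := (h.hd z).hasLineDerivAt e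
      convert h1 using 1
      rw [innerSL_apply_apply, inner_eq]) (by
      intro z hz
      exact hf z (h.tsupport_subset hz))
  simpa only [ContinuousLinearMap.mul_apply'] using key

/-- the divergence theorem for `W ‖F‖^(-k) v` -/
theorem WtG.gauss (h : WtG W g r₁ r₂) {F v : ℂ → ℂ} {U : Set ℂ} (hU : IsOpen U)
    (hAU : Ann r₁ r₂ ⊆ U) (hF : DifferentiableOn ℂ F U) (hv : DifferentiableOn ℂ v U)
    (h0 : ∀ z ∈ Ann r₁ r₂, F z ≠ 0) (k : ℝ) :
    ∫ z : ℂ, W z * (‖F z‖ ^ (-k) * (k * (v z * (deriv F z / F z)).re)) =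
      ∫ z : ℂ, (W z * (‖F z‖ ^ (-k) * (2 * (deriv v z).re)) +
        ‖F z‖ ^ (-k) * (conj (g z) * v z).re) := by
  have cF : ContinuousOn F (Ann r₁ r₂) := hF.continuousOn.mono hAU
  have cv : ContinuousOn v (Ann r₁ r₂) := hv.continuousOn.mono hAU
  have cdF : ContinuousOn (deriv F) (Ann r₁ r₂) := (hF.deriv hU).continuousOn.mono hAU
  have cdv : ContinuousOn (deriv v) (Ann r₁ r₂) := (hv.deriv hU).continuousOn.mono hAU
  have cP : ContinuousOn (fun z => ‖F z‖ ^ (-k)) (Ann r₁ r₂) :=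
    cF.norm.rpow_const fun z hz => Or.inl (norm_ne_zero_iff.mpr (h0 z hz))
  have cq : ContinuousOn (fun z => deriv F z / F z) (Ann r₁ r₂) := cdF.div cF h0
  have cW : ContinuousOn W (Ann r₁ r₂) := h.contW.continuousOn
  have cgg : ContinuousOn (fun z => conj (g z)) (Ann r₁ r₂) :=
    (continuous_conj.comp h.cont).continuousOn
  have cre : ∀ e : ℂ, ContinuousOn (fun z => (conj e * v z).re) (Ann r₁ r₂) := fun e =>
    Complex.continuous_re.comp_continuousOn (continuousOn_const.mul cv)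
  have cB : ∀ e : ℂ, ContinuousOn (fun z => -k * ‖F z‖ ^ (-k) * (deriv F z * e / F z).re *
      (conj e * v z).re + ‖F z‖ ^ (-k) * (deriv v z).re) (Ann r₁ r₂) := fun e =>
    (((continuousOn_const.mul cP).mul
            (Complex.continuous_re.comp_continuousOn ((cdF.mul continuousOn_const).div cF h0))).mul
      (cre e)).add (cP.mul (Complex.continuous_re.comp_continuousOn cdv))
  -- the integration by parts in direction `e`
  have key : ∀ e : ℂ, ‖e‖ = 1 →
      ∫ z : ℂ, W z * (-k * ‖F z‖ ^ (-k) * (deriv F z * e / F z).re * (conj e * v z).re +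
        ‖F z‖ ^ (-k) * (deriv v z).re) =
      - ∫ z : ℂ, (conj (g z) * e).re * (‖F z‖ ^ (-k) * (conj e * v z).re) := by
    intro e he
    apply h.parts
    · intro z hz
      have hz' : U ∈ 𝓝 z := hU.mem_nhds (hAU hz)
      have h1 : HasDerivAt (fun t : ℝ => z + t • e) e 0 := by
        have := ((hasDerivAt_id (0:ℝ)).smul_const e).const_add z
        simpa using this
      have h2 : HasDerivAt F (deriv F z) (z + (0:ℝ) • e) := by
        rw [zero_smul, add_zero]
        exact (hF.differentiableAt hz').hasDerivAt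
      have h3 : HasDerivAt v (deriv v z) (z + (0:ℝ) • e) := by
        rw [zero_smul, add_zero]
        exact (hv.differentiableAt hz').hasDerivAt
      have h4 : HasDerivAt (fun t : ℝ => F (z + t • e)) (deriv F z * e) 0 :=
        HasDerivAt.comp (0:ℝ) h2 h1
      have h5 : HasDerivAt (fun t : ℝ => v (z + t • e)) (deriv v z * e) 0 :=
        HasDerivAt.comp (0:ℝ) h3 h1
      have h6 := hasDerivAt_norm_rpow k h4 (by
        rw [zero_smul, add_zero]; exact h0 z hz)
      have h7 : HasDerivAt (fun t : ℝ => (conj e * v (z + t • e)).re)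
          (conj e * (deriv v z * e)).re 0 :=
        (Complex.reCLM.hasFDerivAt.comp_hasDerivAt (0:ℝ) (h5.const_mul (conj e)))
      have h8 := h6.mul h7
      unfold HasLineDerivAt
      refine h8.congr_deriv ?_
      rw [zero_smul, add_zero]
      have h9 : conj e * (deriv v z * e) = deriv v z := by
        have h10 : conj e * e = 1 := by
          rw [mul_comm, Complex.mul_conj, Complex.normSq_eq_norm_sq, he]
          norm_num
        linear_combination (deriv v z) * h10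
      rw [h9]
    · exact cP.mul (cre e)
    · exact cB e
  have k1 := key 1 (by simp)
  have kI := key I (by simp)
  have i1 : ∀ e : ℂ, Integrable (fun z : ℂ => W z * (-k * ‖F z‖ ^ (-k) *
      (deriv F z * e / F z).re * (conj e * v z).re + ‖F z‖ ^ (-k) * (deriv v z).re)) := fun e =>
    integrable_ann (cW.mul (cB e)) fun z hz => by rw [h.supp z hz, zero_mul]
  have i2 : ∀ e : ℂ, Integrable (fun z : ℂ => (conj (g z) * e).re *
      (‖F z‖ ^ (-k) * (conj e * v z).re)) := fun e =>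
    integrable_ann ((Complex.continuous_re.comp_continuousOn (cgg.mul continuousOn_const)).mul
      (cP.mul (cre e))) fun z hz => by rw [h.supp' z hz]; simp
  have i3 : Integrable (fun z : ℂ => W z * (‖F z‖ ^ (-k) * (k * (v z *
      (deriv F z / F z)).re))) :=
    integrable_ann (cW.mul (cP.mul (continuousOn_const.mul
      (Complex.continuous_re.comp_continuousOn (cv.mul cq))))) fun z hz => by
        rw [h.supp z hz, zero_mul]
  have i4 : Integrable (fun z : ℂ => W z * (‖F z‖ ^ (-k) * (2 * (deriv v z).re))) :=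
    integrable_ann (cW.mul (cP.mul (continuousOn_const.mul
      (Complex.continuous_re.comp_continuousOn cdv)))) fun z hz => by
        rw [h.supp z hz, zero_mul]
  have i5 : Integrable (fun z : ℂ => ‖F z‖ ^ (-k) * (conj (g z) * v z).re) :=
    integrable_ann (cP.mul (Complex.continuous_re.comp_continuousOn (cgg.mul cv))) fun z hz => by
      rw [h.supp' z hz]; simp
  have hs : ∫ z : ℂ, (W z * (‖F z‖ ^ (-k) * (2 * (deriv v z).re)) -
      W z * (‖F z‖ ^ (-k) * (k * (v z * (deriv F z / F z)).re))) =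
      - ∫ z : ℂ, ‖F z‖ ^ (-k) * (conj (g z) * v z).re := by
    calc _ = ∫ z : ℂ, ((W z * (-k * ‖F z‖ ^ (-k) * (deriv F z * 1 / F z).re *
          (conj 1 * v z).re + ‖F z‖ ^ (-k) * (deriv v z).re)) +
          (W z * (-k * ‖F z‖ ^ (-k) * (deriv F z * I / F z).re *
          (conj I * v z).re + ‖F z‖ ^ (-k) * (deriv v z).re))) := by
          apply integral_congr_ae
          refine Eventually.of_forall fun z => ?_
          beta_reduce
          have e1 : (v z * (deriv F z / F z)).re =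
              (deriv F z * 1 / F z).re * (conj 1 * v z).re +
              (deriv F z * I / F z).re * (conj I * v z).re := by
            have e2 : deriv F z * I / F z = (deriv F z / F z) * I := by ring
            have e3 : deriv F z * 1 / F z = (deriv F z / F z) := by ring
            rw [e2, e3]
            simp [Complex.mul_re]
            ring
          rw [e1]
          ring
      _ = _ := by
          rw [integral_add (i1 1) (i1 I), k1, kI, ← neg_add, ← integral_add (i2 1) (i2 I)]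
          congr 1
          apply integral_congr_ae
          refine Eventually.of_forall fun z => ?_
          beta_reduce
          have e1 : (conj (g z) * v z).re = (conj (g z) * 1).re * (conj 1 * v z).re +
              (conj (g z) * I).re * (conj I * v z).re := by
            simp [Complex.mul_re]
          rw [e1]
          ring
  rw [integral_sub i4 i3] at hs
  rw [integral_add i4 i5]
  linarith

/-- the area functional -/
noncomputable def JG (k : ℝ) (W : ℂ → ℝ) (β : ℂ → ℂ) : ℝ := ∫ z : ℂ, W z * ‖N β z‖ ^ (-k)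

/-- the kernel of the gradient term: `Re (conj g z h) = Re (τ kg)` -/
noncomputable def kg (p z g : ℂ) : ℂ :=
  (1 / 2) * (conj g * z * ((z + p) / (z - p)) - g * conj z * ((1 + p * conj z) / (1 - p * conj z)))

/-- the first variation -/
noncomputable def LamG (k : ℝ) (W : ℂ → ℝ) (g : ℂ → ℂ) (β : ℂ → ℂ) (p : ℂ) : ℂ :=
  ∫ z : ℂ, ((‖N β z‖ ^ (-k) : ℝ) : ℂ) * (((W z : ℝ) : ℂ) * ker1 k β p z - kg p z (g z))

/-- the linear functional -/
noncomputable def LLG (k : ℝ) (W : ℂ → ℝ) (β : ℂ → ℂ) (p τ : ℂ) : ℝ :=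
  ∫ z : ℂ, W z * (‖N β z‖ ^ (-k) * (-k * (DD β p τ z / dphi β z).re))

theorem re_kg (g : ℂ) : (conj g * (z * hh p τ z)).re = (τ * kg p z g).re := by
  have e1 : (conj g * (z * ((1 / 2) * (conj τ * ((1 + conj p * z) / (1 - conj p * z)))))).re =
      (g * (conj z * ((1 / 2) * (τ * ((1 + p * conj z) / (1 - p * conj z)))))).re := by
    rw [← Complex.conj_re (g * _)]
    congr 1
    simp only [map_mul, map_div₀, map_add, map_sub, map_one, Complex.conj_conj, map_ofNat]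
  have e2 : conj g * (z * hh p τ z) = conj g * (z * ((1 / 2) * (τ * ((z + p) / (z - p))))) -
      conj g * (z * ((1 / 2) * (conj τ * ((1 + conj p * z) / (1 - conj p * z))))) := by
    unfold hh; ring
  rw [e2, Complex.sub_re, e1, ← Complex.sub_re]
  congr 1
  unfold kg
  ring

/-- uniform bound for the direction of the variation -/
theorem DD_unif {η : ℝ} (hη : 0 < η) (hη1 : η < 1) {C t0 : ℝ} (hC : 0 < C) (ht0 : 0 < t0)
    (hvar : ∀ β : ℂ → ℂ, Ext β → ∀ p : ℂ, η ≤ ‖p‖ → ‖p‖ ≤ 1 - η →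
    ∀ τ : ℂ, ‖τ‖ ≤ t0 → ∃ γ : ℂ → ℂ, Ext γ ∧ ∀ z : ℂ, η ≤ ‖z‖ → ‖z‖ ≤ 1 - η → η ≤ ‖z - p‖ →
      ‖deriv γ z - deriv β z - deriv (fun z => VV β p τ z - (τ.re : ℂ) * phi β z) z‖ ≤
        C * ‖τ‖ ^ 2) :
    ∃ K : ℝ, 0 ≤ K ∧ ∀ β : ℂ → ℂ, Ext β → ∀ p : ℂ, η ≤ ‖p‖ → ‖p‖ ≤ 1 - η →
      ∀ τ z : ℂ, η ≤ ‖z‖ → ‖z‖ ≤ 1 - η → η ≤ ‖z - p‖ → ‖DD β p τ z‖ ≤ K * ‖τ‖ := by
  obtain ⟨c, hc⟩ : ∃ c, c = 1 - (1 - η) ^ 2 := ⟨_, rfl⟩
  have hc0 : 0 < c := by rw [hc]; nlinarith
  obtain ⟨B, hB⟩ : ∃ B, B = 2 * c⁻¹ / η ^ 2 + C * t0 ^ 2 := ⟨_, rfl⟩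
  have hB0 : 0 ≤ B := by rw [hB]; positivity
  refine ⟨B / t0, by positivity, ?_⟩
  intro β hβ p hp1 hp2 τ z hz1 hz2 hz3
  have hz : ‖z‖ < 1 := by linarith
  have hz0 : 0 < ‖z‖ := by linarith
  have hcz : c ≤ 1 - ‖z‖ ^ 2 := by
    have := pow_le_pow_left₀ (norm_nonneg z) hz2 2
    rw [hc]; linarith
  rcases eq_or_ne τ 0 with rfl | hτ
  · have : DD β p 0 z = 0 := by
      unfold DD
      have e : (fun z => VV β p 0 z - ((0:ℂ).re : ℂ) * phi β z) = fun _ => 0 := by
        funext y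
        have h1 := VV_smul β p 0 y 0
        rw [mul_zero, Complex.ofReal_zero, zero_mul] at h1
        rw [h1]
        simp
      rw [e]
      simp
    rw [this]
    simp
  have hτn : 0 < ‖τ‖ := norm_pos_iff.mpr hτ
  obtain ⟨s, hs⟩ : ∃ s, s = t0 / ‖τ‖ := ⟨_, rfl⟩
  have hs0 : 0 < s := by rw [hs]; positivity
  have hn : ‖((s : ℝ) : ℂ) * τ‖ = t0 := by
    rw [norm_mul, Complex.norm_real, Real.norm_of_nonneg hs0.le, hs]
    field_simp
  obtain ⟨γ, hγ, hγ2⟩ := hvar β hβ p hp1 hp2 (((s : ℝ) : ℂ) * τ) hn.le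
  have h1 := hγ2 z hz1 hz2 hz3
  rw [hn] at h1
  have h2 : DD β p (((s : ℝ) : ℂ) * τ) z = (s : ℂ) * DD β p τ z := by
    unfold DD
    rw [← deriv_const_mul_field]
    congr 1
    funext y
    rw [VV_smul, Complex.re_ofReal_mul]
    push_cast
    ring
  have h3 : ‖DD β p (((s : ℝ) : ℂ) * τ) z‖ ≤ B := by
    have e1 : DD β p (((s : ℝ) : ℂ) * τ) z = (deriv γ z - deriv β z) -
        (deriv γ z - deriv β z - DD β p (((s : ℝ) : ℂ) * τ) z) := by ring
    rw [e1]
    refine (norm_sub_le _ _).trans ?_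
    rw [hB]
    apply add_le_add _ h1
    have e2 : deriv γ z - deriv β z = (N β z - N γ z) / z ^ 2 := by
      have : z ≠ 0 := norm_pos_iff.mp hz0
      unfold N
      field_simp
      ring
    rw [e2, norm_div, norm_pow]
    apply div_le_div₀ (by positivity) _ (by positivity) (by gcongr)
    refine (norm_sub_le _ _).trans ?_
    have a1 := (N_le hβ hz).trans (inv_anti₀ hc0 hcz)
    have a2 := (N_le hγ hz).trans (inv_anti₀ hc0 hcz)
    linarith
  rw [h2, norm_mul, Complex.norm_real, Real.norm_of_nonneg hs0.le, hs] at h3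
  rw [div_mul_eq_mul_div, le_div_iff₀ ht0]
  rw [div_mul_eq_mul_div, div_le_iff₀ hτn] at h3
  linarith

theorem JG_integrable (hW : WtG W g r₁ r₂) (hr : r₂ < 1) (h : Ext β) (k : ℝ) :
    Integrable (fun z : ℂ => W z * ‖N β z‖ ^ (-k)) :=
  integrable_ann (hW.contW.continuousOn.mul (P_cont h k hr)) fun z hz => by
    rw [hW.supp z hz, zero_mul]

/-- first order expansion of the functional, uniform in the class -/
theorem JG_expand (hV : Variation) (hW : WtG W g r₁ r₂) (hr12 : r₁ ≤ r₂) (hr : r₂ < 1)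
    (hk : 0 < k) {η : ℝ} (hη : 0 < η) (hη1 : η < 1) (hηr : η ≤ r₁) (hηr2 : r₂ ≤ 1 - η) :
    ∃ C t₁ : ℝ, 0 ≤ C ∧ 0 < t₁ ∧ ∀ β : ℂ → ℂ, Ext β → ∀ p : ℂ, η ≤ ‖p‖ → ‖p‖ ≤ r₁ - η →
      ∀ τ : ℂ, ‖τ‖ ≤ t₁ → ∃ γ : ℂ → ℂ, Ext γ ∧
      |JG k W γ - JG k W β - LLG k W β p τ| ≤ C * ‖τ‖ ^ 2 := by
  have hr1 : r₁ < 1 := lt_of_le_of_lt hr12 hr
  have hr₁ := hW.pos
  obtain ⟨C, t0, hC, ht0, hvar⟩ := hV η hη
  obtain ⟨K, hK0, hK⟩ := DD_unif hη hη1 hC ht0 hvar
  obtain ⟨c, hc⟩ : ∃ c, c = 1 - r₂ ^ 2 := ⟨_, rfl⟩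
  have hr20 : 0 ≤ r₂ := hr₁.le.trans hr12
  have hc0 : 0 < c := by rw [hc]; nlinarith
  obtain ⟨C1, hC10, hC1⟩ := norm_taylor (c := c) (M := c⁻¹) (k := k) hc0 hk
  obtain ⟨Cw, hCw⟩ : ∃ Cw, Cw = ∫ z : ℂ, |W z| := ⟨_, rfl⟩
  have hCw0 : 0 ≤ Cw := by rw [hCw]; exact integral_nonneg fun z => abs_nonneg _
  obtain ⟨C2, hC2⟩ : ∃ C2, C2 = C1 * (K + C) ^ 2 + k * c ^ (-k) * (C / c) := ⟨_, rfl⟩
  have hC20 : 0 ≤ C2 := by rw [hC2]; positivity
  refine ⟨Cw * C2, min t0 1, by positivity, lt_min ht0 one_pos, ?_⟩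
  intro β h p hp1' hp' τ hτ
  have hp0 : p ≠ 0 := by
    intro h0
    rw [h0, norm_zero] at hp1'
    linarith
  have hp : ‖p‖ < r₁ := by linarith
  have hp1 : ‖p‖ < 1 := hp.trans hr1
  have hτ1 : ‖τ‖ ≤ 1 := hτ.trans (min_le_right _ _)
  obtain ⟨γ, hγ, hγ2⟩ := hvar β h p hp1' (by linarith) τ (hτ.trans (min_le_left _ _))
  refine ⟨γ, hγ, ?_⟩
  have i1 := JG_integrable hW hr hγ k
  have i2 := JG_integrable hW hr h k
  have i3 : Integrable (fun z : ℂ => W z * (‖N β z‖ ^ (-k) *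
      (-k * (DD β p τ z / dphi β z).re))) := by
    apply integrable_ann
    · apply hW.contW.continuousOn.mul
      apply (P_cont h k hr).mul
      apply continuousOn_const.mul
      apply Complex.continuous_re.comp_continuousOn
      apply (DD_cont h hr₁ hr hp0 hp hp1 τ).div (dphi_cont h hr₁ hr)
      intro z hz h0
      have hz0 := ann_ne hr₁ hz
      rw [dphi_eq hz0, neg_eq_zero, div_eq_zero_iff] at h0
      rcases h0 with h0 | h0
      · exact h.ne z (by simpa using ann_ball hr hz) h0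
      · exact pow_ne_zero 2 hz0 h0
    · intro z hz
      rw [hW.supp z hz, zero_mul]
  have i4 : Integrable (fun z : ℂ => |W z| * C2 * ‖τ‖ ^ 2) := by
    have : Integrable W := integrable_ann hW.contW.continuousOn hW.supp
    exact (this.abs.mul_const C2).mul_const (‖τ‖ ^ 2)
  have e1 : JG k W γ - JG k W β - LLG k W β p τ =
      ∫ z : ℂ, (W z * ‖N γ z‖ ^ (-k) - W z * ‖N β z‖ ^ (-k) -
        W z * (‖N β z‖ ^ (-k) * (-k * (DD β p τ z / dphi β z).re))) := by
    have i12 : Integrable (fun z : ℂ => W z * ‖N γ z‖ ^ (-k) - W z * ‖N β z‖ ^ (-k)) :=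
      i1.sub i2
    unfold JG LLG
    rw [integral_sub i12 i3, integral_sub i1 i2]
  rw [e1, ← Real.norm_eq_abs]
  have e2 : Cw * C2 * ‖τ‖ ^ 2 = ∫ z : ℂ, |W z| * C2 * ‖τ‖ ^ 2 := by
    rw [integral_mul_const, integral_mul_const, hCw]
  rw [e2]
  apply norm_integral_le_of_norm_le i4
  refine Eventually.of_forall fun z => ?_
  rw [Real.norm_eq_abs]
  by_cases hz : z ∈ Ann r₁ r₂
  swap
  · rw [hW.supp z hz]
    simp
  have hz1 := ann_ball hr hz
  have hz0 := ann_ne hr₁ hz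
  have hzb : z ∈ ball (0:ℂ) 1 := by simpa using hz1
  have hzp : η ≤ ‖z - p‖ := by
    have h1 := norm_sub_norm_le z p
    linarith [hz.1]
  have hg := hγ2 z (hηr.trans hz.1) (hz.2.trans hηr2) hzp
  have e3 : W z * ‖N γ z‖ ^ (-k) - W z * ‖N β z‖ ^ (-k) -
        W z * (‖N β z‖ ^ (-k) * (-k * (DD β p τ z / dphi β z).re)) =
      W z * (‖N γ z‖ ^ (-k) - ‖N β z‖ ^ (-k) +
        k * ‖N β z‖ ^ (-k) * (DD β p τ z / dphi β z).re) := by ring
  rw [e3, abs_mul, mul_assoc |W z| C2]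
  apply mul_le_mul_of_nonneg_left _ (abs_nonneg _)
  -- the pointwise estimate
  have hzn : 0 < ‖z‖ := norm_pos_iff.mpr hz0
  have hzsq : 1 - ‖z‖ ^ 2 ≥ c := by
    rw [hc]
    have := pow_le_pow_left₀ (norm_nonneg z) hz.2 2
    linarith
  have b1 : c ≤ ‖N β z‖ := hzsq.le.trans (Pool.Agent.Helper39.EK.N_ge h hz1)
  have b2 : ‖N β z‖ ≤ c⁻¹ := (N_le h hz1).trans (inv_anti₀ hc0 hzsq)
  have b3 : c ≤ ‖N γ z‖ := hzsq.le.trans (Pool.Agent.Helper39.EK.N_ge hγ hz1)
  have b4 : ‖N γ z‖ ≤ c⁻¹ := (N_le hγ hz1).trans (inv_anti₀ hc0 hzsq)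
  obtain ⟨g, hgd⟩ : ∃ g, g = deriv γ z - deriv β z := ⟨_, rfl⟩
  have e4 : N γ z = N β z + -(z ^ 2 * g) := by
    rw [hgd]; unfold N; ring
  rw [← hgd] at hg
  have hg' : ‖g - DD β p τ z‖ ≤ C * ‖τ‖ ^ 2 := hg
  have hgn : ‖g‖ ≤ (K + C) * ‖τ‖ := by
    have h1 : g = (g - DD β p τ z) + DD β p τ z := by ring
    have h2 : ‖g‖ ≤ ‖g - DD β p τ z‖ + ‖DD β p τ z‖ := by
      conv_lhs => rw [h1]
      exact norm_add_le _ _
    have h3 := hK β h p hp1' (by linarith) τ z (hηr.trans hz.1) (hz.2.trans hηr2) hzp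
    have h4 : ‖τ‖ ^ 2 ≤ ‖τ‖ := by
      rw [sq]; exact mul_le_of_le_one_left (norm_nonneg τ) hτ1
    have h5 : C * ‖τ‖ ^ 2 ≤ C * ‖τ‖ := mul_le_mul_of_nonneg_left h4 hC.le
    rw [add_mul]
    linarith
  have ht := hC1 (N β z) (-(z ^ 2 * g)) b1 b2 (by rw [← e4]; exact b3) (by rw [← e4]; exact b4)
  rw [← e4] at ht
  have hN0 : N β z ≠ 0 := h.ne z hzb
  have e5 : -(z ^ 2 * g) / N β z = g / dphi β z := by
    rw [dphi_eq hz0]
    field_simp
  rw [e5] at ht
  have hz2 : ‖z‖ ^ 2 ≤ 1 := pow_le_one₀ (norm_nonneg z) hz1.le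
  have hn : ‖-(z ^ 2 * g)‖ ≤ (K + C) * ‖τ‖ := by
    rw [norm_neg, norm_mul, norm_pow]
    calc ‖z‖ ^ 2 * ‖g‖ ≤ 1 * ‖g‖ := by gcongr
      _ ≤ _ := by rw [one_mul]; exact hgn
  have hKC : 0 ≤ K + C := by linarith
  have ht2 : C1 * ‖-(z ^ 2 * g)‖ ^ 2 ≤ C1 * (K + C) ^ 2 * ‖τ‖ ^ 2 := by
    calc C1 * ‖-(z ^ 2 * g)‖ ^ 2 ≤ C1 * ((K + C) * ‖τ‖) ^ 2 := by gcongr
      _ = _ := by ring
  have hdl : c ≤ ‖dphi β z‖ := by
    rw [dphi_eq hz0, norm_neg, norm_div, norm_pow, le_div_iff₀ (by positivity)]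
    calc c * ‖z‖ ^ 2 ≤ c * 1 := by gcongr
      _ ≤ ‖N β z‖ := by rw [mul_one]; exact b1
  have hre : |(DD β p τ z / dphi β z).re - (g / dphi β z).re| ≤ C * ‖τ‖ ^ 2 / c := by
    rw [← Complex.sub_re, ← sub_div]
    refine (Complex.abs_re_le_norm _).trans ?_
    rw [norm_div, ← norm_neg, neg_sub]
    apply div_le_div₀ (by positivity) hg' hc0 hdl
  have hPn : ‖N β z‖ ^ (-k) ≤ c ^ (-k) := Real.rpow_le_rpow_of_nonpos hc0 b1 (by linarith)
  have hP0 : 0 ≤ ‖N β z‖ ^ (-k) := by positivity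
  have e6 : ‖N γ z‖ ^ (-k) - ‖N β z‖ ^ (-k) + k * ‖N β z‖ ^ (-k) * (DD β p τ z / dphi β z).re =
      (‖N γ z‖ ^ (-k) - ‖N β z‖ ^ (-k) + k * ‖N β z‖ ^ (-k) * (g / dphi β z).re) +
      k * ‖N β z‖ ^ (-k) * ((DD β p τ z / dphi β z).re - (g / dphi β z).re) := by ring
  rw [e6]
  refine (abs_add_le _ _).trans ?_
  rw [hC2, add_mul]
  apply add_le_add (ht.trans ht2)
  rw [abs_mul, abs_of_nonneg (by positivity)]
  calc k * ‖N β z‖ ^ (-k) * |(DD β p τ z / dphi β z).re - (g / dphi β z).re| ≤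
      k * c ^ (-k) * (C * ‖τ‖ ^ 2 / c) := by gcongr
    _ = _ := by ring

theorem kg_cont (hW : WtG W g r₁ r₂) (hr : r₂ < 1) (hp : ‖p‖ < r₁) (hp1 : ‖p‖ < 1) :
    ContinuousOn (fun z => kg p z (g z)) (Ann r₁ r₂) := by
  unfold kg
  have c1 : ContinuousOn (fun z => g z) (Ann r₁ r₂) := hW.cont.continuousOn
  have c2 : ContinuousOn (fun z => conj (g z)) (Ann r₁ r₂) :=
    (continuous_conj.comp hW.cont).continuousOn
  apply continuousOn_const.mul
  apply ContinuousOn.sub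
  · apply (c2.mul continuousOn_id).mul
    apply ContinuousOn.div (by fun_prop) (by fun_prop)
    intro z hz
    exact sub_ne_zero.mpr (ann_ne_p hp hz)
  · apply (c1.mul continuous_conj.continuousOn).mul
    apply ContinuousOn.div (by fun_prop) (by fun_prop)
    intro z hz
    exact one_sub_ne' hp1 (ann_ball hr hz)

/-- the integrand of `LamG` is integrable -/
theorem LamG_integrable (hW : WtG W g r₁ r₂) (hr : r₂ < 1) (h : Ext β) (hp0 : p ≠ 0)
    (hp : ‖p‖ < r₁) (hp1 : ‖p‖ < 1) (k : ℝ) :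
    Integrable (fun z : ℂ => ((‖N β z‖ ^ (-k) : ℝ) : ℂ) *
    (((W z : ℝ) : ℂ) * ker1 k β p z - kg p z (g z))) := by
  have hr₁ := hW.pos
  have cP : ContinuousOn (fun z => ((‖N β z‖ ^ (-k) : ℝ) : ℂ)) (Ann r₁ r₂) :=
    Complex.continuous_ofReal.comp_continuousOn (P_cont h k hr)
  apply integrable_ann
  · exact cP.mul (((Complex.continuous_ofReal.comp_continuousOn hW.contW.continuousOn).mul
      (ker1_cont (k := k) h hr₁ hr hp0 hp hp1)).sub (kg_cont hW hr hp hp1))
  · intro z hz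
    rw [hW.supp z hz, hW.supp' z hz]
    simp [kg]

/-- the linear functional in closed form -/
theorem LLG_eq (hW : WtG W g r₁ r₂) (hr : r₂ < 1) (h : Ext β) (hp0 : p ≠ 0) (hp : ‖p‖ < r₁)
    (hp1 : ‖p‖ < 1) (k : ℝ) (τ : ℂ) : LLG k W β p τ = (τ * LamG k W g β p).re := by
  have hr₁ := hW.pos
  -- the right side as a real integral
  have e1 : (τ * LamG k W g β p).re = ∫ z : ℂ, (τ * (((‖N β z‖ ^ (-k) : ℝ) : ℂ) *
      (((W z : ℝ) : ℂ) * ker1 k β p z - kg p z (g z)))).re := by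
    unfold LamG
    rw [← integral_const_mul]
    exact (integral_re ((LamG_integrable hW hr h hp0 hp hp1 k).const_mul τ)).symm
  rw [e1]
  -- the divergence theorem
  have hU : IsOpen (ball (0:ℂ) 1 ∩ {p}ᶜ) := isOpen_ball.inter isOpen_compl_singleton
  have hAU : Ann r₁ r₂ ⊆ ball (0:ℂ) 1 ∩ {p}ᶜ := fun z hz =>
    ⟨by simpa using ann_ball hr hz, ann_ne_p hp hz⟩
  have hv : DifferentiableOn ℂ (fun z => z * hh p τ z) (ball (0:ℂ) 1 ∩ {p}ᶜ) := by
    intro z hz
    have hz1 : ‖z‖ < 1 := by simpa using hz.1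
    exact ((hasDerivAt_id z).mul (hasDerivAt_hh (τ := τ) (by simpa using hz.2)
      (one_sub_ne hp1 hz1))).differentiableAt.differentiableWithinAt
  have hg := hW.gauss hU hAU ((N_diff h).mono inter_subset_left) hv
    (fun z hz => h.ne z (by simpa using ann_ball hr hz)) k
  have hdv : ∀ z ∈ Ann r₁ r₂, deriv (fun z => z * hh p τ z) z = hh p τ z + z * dh p τ z := by
    intro z hz
    have := ((hasDerivAt_id z).mul (hasDerivAt_hh (τ := τ) (ann_ne_p hp hz)
      (one_sub_ne hp1 (ann_ball hr hz)))).deriv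
    rw [show (fun z => z * hh p τ z) = (id * hh p τ) from rfl, this]
    simp
  -- continuity
  have cP := P_cont (r₁ := r₁) h k hr
  have cW : ContinuousOn W (Ann r₁ r₂) := hW.contW.continuousOn
  have chh : ContinuousOn (hh p τ) (Ann r₁ r₂) := fun z hz =>
    (hasDerivAt_hh (τ := τ) (ann_ne_p hp hz) (one_sub_ne hp1 (ann_ball hr hz))
      ).continuousAt.continuousWithinAt
  have cN : ContinuousOn (N β) (Ann r₁ r₂) :=
    (N_diff h).continuousOn.mono fun z hz => by simpa using ann_ball hr hz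
  have cdN : ContinuousOn (deriv (N β)) (Ann r₁ r₂) :=
    ((N_diff h).deriv isOpen_ball).continuousOn.mono fun z hz => by simpa using ann_ball hr hz
  have hN0 : ∀ z ∈ Ann r₁ r₂, N β z ≠ 0 := fun z hz => h.ne z (by simpa using ann_ball hr hz)
  have ci : ContinuousOn (fun z => k * (z * hh p τ z * (deriv (N β) z / N β z)).re)
      (Ann r₁ r₂) :=
    continuousOn_const.mul (Complex.continuous_re.comp_continuousOn
      ((continuousOn_id.mul chh).mul (cdN.div cN hN0)))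
  have iA : Integrable (fun z : ℂ => W z * (‖N β z‖ ^ (-k) *
      (k * (z * hh p τ z * (deriv (N β) z / N β z)).re))) :=
    integrable_ann (cW.mul (cP.mul ci)) fun z hz => by rw [hW.supp z hz, zero_mul]
  have cdv : ContinuousOn (deriv (fun z => z * hh p τ z)) (Ann r₁ r₂) :=
    (hv.deriv hU).continuousOn.mono hAU
  have iB : Integrable (fun z : ℂ => W z * (‖N β z‖ ^ (-k) *
      (2 * (deriv (fun z => z * hh p τ z) z).re)) +
      ‖N β z‖ ^ (-k) * (conj (g z) * (z * hh p τ z)).re) := by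
    apply Integrable.add
    · exact integrable_ann (cW.mul (cP.mul (continuousOn_const.mul
        (Complex.continuous_re.comp_continuousOn cdv)))) fun z hz => by
          rw [hW.supp z hz, zero_mul]
    · exact integrable_ann (cP.mul (Complex.continuous_re.comp_continuousOn
        ((continuous_conj.comp hW.cont).continuousOn.mul (continuousOn_id.mul chh))))
        fun z hz => by rw [hW.supp' z hz]; simp
  have iC : Integrable (fun z : ℂ => W z * (‖N β z‖ ^ (-k) *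
      (-k * (DD β p τ z / dphi β z).re))) := by
    apply integrable_ann
    · apply cW.mul
      apply cP.mul
      apply continuousOn_const.mul
      apply Complex.continuous_re.comp_continuousOn
      apply (DD_cont h hr₁ hr hp0 hp hp1 τ).div (dphi_cont h hr₁ hr)
      intro z hz h0
      have hz0 := ann_ne hr₁ hz
      rw [dphi_eq hz0, neg_eq_zero, div_eq_zero_iff] at h0
      rcases h0 with h0 | h0
      · exact hN0 z hz h0
      · exact pow_ne_zero 2 hz0 h0
    · intro z hz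
      rw [hW.supp z hz, zero_mul]
  have e2 : LLG k W β p τ = ∫ z : ℂ, ((W z * (‖N β z‖ ^ (-k) *
      (-k * (DD β p τ z / dphi β z).re)) + W z * (‖N β z‖ ^ (-k) *
      (k * (z * hh p τ z * (deriv (N β) z / N β z)).re))) -
      (W z * (‖N β z‖ ^ (-k) *
      (2 * (deriv (fun z => z * hh p τ z) z).re)) +
      ‖N β z‖ ^ (-k) * (conj (g z) * (z * hh p τ z)).re)) := by
    have iCA : Integrable (fun z : ℂ => W z * (‖N β z‖ ^ (-k) *
        (-k * (DD β p τ z / dphi β z).re)) + W z * (‖N β z‖ ^ (-k) *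
        (k * (z * hh p τ z * (deriv (N β) z / N β z)).re))) := iC.add iA
    rw [integral_sub iCA iB, integral_add iC iA, hg]
    unfold LLG
    ring
  rw [e2]
  apply integral_congr_ae
  refine Eventually.of_forall fun z => ?_
  beta_reduce
  by_cases hz : z ∈ Ann r₁ r₂
  swap
  · rw [hW.supp z hz, hW.supp' z hz]
    simp [kg]
  have hz0 := ann_ne hr₁ hz
  have hz1 := ann_ball hr hz
  have hzp := ann_ne_p hp hz
  have hd0 : dphi β z ≠ 0 := by
    rw [dphi_eq hz0, neg_ne_zero]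
    exact div_ne_zero (hN0 z hz) (pow_ne_zero 2 hz0)
  have e3 : DD β p τ z / dphi β z = -(eps β p τ / (phi β z - phi β p) ^ 2) +
        (deriv (N β) z / N β z) * (z * hh p τ z) - 2 * hh p τ z + (hh p τ z + z * dh p τ z) -
        (τ.re : ℂ) := by
    unfold DD
    rw [(hasDerivAt_VV (τ := τ) h hp1 hp0 hz1 hz0 hzp).deriv]
    field_simp
  rw [e3, hdv z hz, re_kg]
  have e5 : (τ * (((‖N β z‖ ^ (-k) : ℝ) : ℂ) *
      (((W z : ℝ) : ℂ) * ker1 k β p z - kg p z (g z)))).re =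
      ‖N β z‖ ^ (-k) * (W z * (τ * ker1 k β p z).re - (τ * kg p z (g z)).re) := by
    rw [← Complex.re_ofReal_mul, ← Complex.sub_re, ← Complex.re_ofReal_mul]
    congr 1
    ring
  have e6 : (τ * ker1 k β p z).re = k * τ.re +
      k * (eps β p τ / (phi β z - phi β p) ^ 2).re + (k - 2) * (τ * ka p z).re +
      (k + 2) * (τ * kb p z).re := by
    have h1 : τ * ker1 k β p z = ((k : ℝ) : ℂ) * τ +
        ((k : ℝ) : ℂ) * (eps β p τ / (phi β z - phi β p) ^ 2) +
        ((k - 2 : ℝ) : ℂ) * (τ * ka p z) + ((k + 2 : ℝ) : ℂ) * (τ * kb p z) := by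
      unfold ker1 eps
      generalize phi β z - phi β p = d
      push_cast
      ring
    rw [h1, Complex.add_re, Complex.add_re, Complex.add_re, Complex.re_ofReal_mul,
      Complex.re_ofReal_mul, Complex.re_ofReal_mul, Complex.re_ofReal_mul]
  rw [e5, e6, ← re_hh hzp hp1 hz1]
  have e7 : (τ * kb p z).re = - (z * dh p τ z).re := by
    rw [re_dh hzp hp1 hz1, neg_neg]
  rw [e7]
  have e8 : (deriv (N β) z / N β z) * (z * hh p τ z) =
      z * hh p τ z * (deriv (N β) z / N β z) := by ring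
  rw [e8]
  simp only [Complex.add_re, Complex.sub_re, Complex.neg_re, Complex.ofReal_re]
  have e9 : (2 * hh p τ z).re = 2 * (hh p τ z).re := by
    have : (2 : ℂ) = ((2 : ℝ) : ℂ) := by norm_num
    rw [this, Complex.re_ofReal_mul]
  rw [e9]
  ring

/-- **the approximate critical equation** at near-maximisers, uniform in the class -/
theorem near_crit (hV : Variation) (hW : WtG W g r₁ r₂) (hr12 : r₁ ≤ r₂) (hr : r₂ < 1)
    (hk : 0 < k) {η : ℝ} (hη : 0 < η) :
    ∃ C s₀ : ℝ, 0 ≤ C ∧ 0 < s₀ ∧ ∀ s : ℝ, 0 < s → s ≤ s₀ → ∀ β : ℂ → ℂ, Ext β →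
      (∀ γ : ℂ → ℂ, Ext γ → JG k W γ ≤ JG k W β + s ^ 2) →
      ∀ p : ℂ, η ≤ ‖p‖ → ‖p‖ ≤ r₁ - η → ‖LamG k W g β p‖ ≤ C * s := by
  have hr₁ := hW.pos
  have hr1 : r₁ < 1 := lt_of_le_of_lt hr12 hr
  obtain ⟨ε, hε0, hε1, hε2, hε3⟩ : ∃ ε : ℝ, 0 < ε ∧ ε ≤ η ∧ ε ≤ r₁ ∧ r₂ ≤ 1 - ε := by
    refine ⟨min η (min r₁ (1 - r₂)), ?_, min_le_left _ _, ?_, ?_⟩
    · exact lt_min hη (lt_min hr₁ (by linarith))
    · exact (min_le_right _ _).trans (min_le_left _ _)
    · have : min η (min r₁ (1 - r₂)) ≤ 1 - r₂ := (min_le_right _ _).trans (min_le_right _ _)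
      linarith
  obtain ⟨C, t₁, hC, ht₁, hexp⟩ := JG_expand hV hW hr12 hr hk hε0 (by linarith) hε2 hε3
  refine ⟨C + 1, t₁, by positivity, ht₁, ?_⟩
  intro s hs0 hs1 β h hmax p hp1 hp2
  have hp0 : p ≠ 0 := by
    intro h0
    rw [h0, norm_zero] at hp1
    linarith
  have hp : ‖p‖ < r₁ := by linarith
  have hpl : ‖p‖ < 1 := hp.trans hr1
  rcases eq_or_ne (LamG k W g β p) 0 with h0 | h0
  · rw [h0, norm_zero]
    positivity
  obtain ⟨L, hL⟩ : ∃ L, L = ‖LamG k W g β p‖ := ⟨_, rfl⟩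
  have hL0 : 0 < L := by rw [hL]; exact norm_pos_iff.mpr h0
  rw [← hL]
  have hn : ‖((s / L : ℝ) : ℂ) * conj (LamG k W g β p)‖ = s := by
    rw [norm_mul, Complex.norm_real, Real.norm_of_nonneg (by positivity), RCLike.norm_conj, ← hL]
    field_simp
  obtain ⟨γ, hγ, hγ2⟩ := hexp β h p (hε1.trans hp1) (by linarith)
    (((s / L : ℝ) : ℂ) * conj (LamG k W g β p)) (by rw [hn]; exact hs1)
  rw [LLG_eq hW hr h hp0 hp hpl, hn] at hγ2
  have e1 : (((s / L : ℝ) : ℂ) * conj (LamG k W g β p) * LamG k W g β p).re = s * L := by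
    rw [mul_assoc, Complex.re_ofReal_mul, mul_comm (conj _), Complex.mul_conj,
      Complex.normSq_eq_norm_sq, Complex.ofReal_re, ← hL]
    field_simp
  rw [e1] at hγ2
  have h2 := hmax γ hγ
  have h3 := (abs_le.mp hγ2).1
  have h4 : s * L ≤ (C + 1) * s ^ 2 := by linarith
  have h5 : (C + 1) * s ^ 2 = s * ((C + 1) * s) := by ring
  rw [h5] at h4
  exact le_of_mul_le_mul_left h4 hs0

/-- **the critical equation** at a maximiser, general weight -/
theorem critG (hV : Variation) (hW : WtG W g r₁ r₂) (hr12 : r₁ ≤ r₂) (hr : r₂ < 1)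
    (hk : 0 < k) (h : Ext β) (hmax : ∀ γ : ℂ → ℂ, Ext γ → JG k W γ ≤ JG k W β)
    (hp0 : p ≠ 0) (hp : ‖p‖ < r₁) : LamG k W g β p = 0 := by
  have hpn : 0 < ‖p‖ := norm_pos_iff.mpr hp0
  obtain ⟨C, s₀, hC, hs₀, hnear⟩ := near_crit hV hW hr12 hr hk
    (η := min ‖p‖ (r₁ - ‖p‖)) (lt_min hpn (by linarith))
  rw [← norm_eq_zero]
  apply le_antisymm _ (norm_nonneg _)
  apply le_of_forall_pos_le_add
  intro ε hε
  rw [zero_add]
  have h1 : 0 < min s₀ (ε / (C + 1)) := lt_min hs₀ (by positivity)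
  have h2 := hnear (min s₀ (ε / (C + 1))) h1 (min_le_left _ _) β h
    (fun γ hγ => (hmax γ hγ).trans (by linarith [sq_nonneg (min s₀ (ε / (C + 1)))])) p
    (min_le_left _ _) (by linarith [min_le_right ‖p‖ (r₁ - ‖p‖)])
  refine h2.trans ?_
  calc C * min s₀ (ε / (C + 1)) ≤ C * (ε / (C + 1)) := by gcongr; exact min_le_right _ _
    _ = ε * (C / (C + 1)) := by ring
    _ ≤ ε * 1 := by
        gcongr
        rw [div_le_one (by positivity)]
        linarith
    _ = ε := mul_one _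

end Pool.Agent.Helper99.CK
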