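import Pool.Agent.Helper39.EK.E1a
set_option autoImplicit false
open Complex MeasureTheory Metric Set Filter Topology
open scoped Real ComplexConjugate

/-!
# Project CK: first order expansion of `‖N‖^(-k)`, uniform on `c ≤ ‖N‖ ≤ M`; bounds for `N`
-/

namespace Pool.Agent.Helper99.CK

open Pool.Agent.Helper39.Area Pool.Agent.Helper52.EK

/-- second order expansion of a negative power -/
theorem rpow_taylor {a q x y : ℝ} (ha : 0 < a) (hq : 0 < q) (hx : a ≤ x) (hy : a ≤ y) :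
    |y ^ (-q) - x ^ (-q) + q * x ^ (-q - 1) * (y - x)| ≤
      q * (q + 1) * a ^ (-q - 2) * (y - x) ^ 2 := by
  obtain ⟨K, hK⟩ : ∃ K, K = q * (q + 1) * a ^ (-q - 2) := ⟨_, rfl⟩
  have hK0 : 0 ≤ K := by rw [hK]; positivity
  rw [← hK]
  have hs : ∀ t ∈ uIcc x y, a ≤ t := by
    intro t ht
    rcases le_total x y with h | h
    · rw [uIcc_of_le h] at ht; linarith [ht.1]
    · rw [uIcc_of_ge h] at ht; linarith [ht.1]
  have hab : ∀ t ∈ uIcc x y, |t - x| ≤ |y - x| := by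
    intro t ht
    rcases le_total x y with h | h
    · rw [uIcc_of_le h] at ht
      rw [abs_of_nonneg (by linarith [ht.1]), abs_of_nonneg (by linarith)]
      linarith [ht.2]
    · rw [uIcc_of_ge h] at ht
      rw [abs_of_nonpos (by linarith [ht.2]), abs_of_nonpos (by linarith)]
      linarith [ht.1]
  -- the derivative of the power
  have hd : ∀ t, a ≤ t → ∀ p : ℝ, HasDerivAt (fun t : ℝ => t ^ p) (p * t ^ (p - 1)) t :=
    fun t ht p => Real.hasDerivAt_rpow_const (Or.inl (ha.trans_le ht).ne')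
  -- first step: the first derivative is Lipschitz
  have h1 : ∀ t ∈ uIcc x y, |(-q) * t ^ (-q - 1) - (-q) * x ^ (-q - 1)| ≤ K * |y - x| := by
    intro t ht
    have hst : uIcc x t ⊆ uIcc x y := uIcc_subset_uIcc left_mem_uIcc ht
    have := (convex_uIcc x t).norm_image_sub_le_of_norm_hasDerivWithin_le
      (f := fun t : ℝ => (-q) * t ^ (-q - 1)) (f' := fun t => (-q) * ((-q - 1) * t ^ (-q - 1 - 1)))
      (C := K) (x := x) (y := t) (fun s hs' => ((hd s (hs s (hst hs')) _).const_mul _).hasDerivWithinAt)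
      (fun s hs' => by
        have h2 : a ≤ s := hs s (hst hs')
        have h3 : 0 < s := ha.trans_le h2
        have h4 : s ^ (-q - 1 - 1) ≤ a ^ (-q - 2) := by
          have e : -q - 1 - 1 = -q - 2 := by ring
          rw [e]
          exact Real.rpow_le_rpow_of_nonpos ha h2 (by linarith)
        have h5 : 0 < s ^ (-q - 1 - 1) := Real.rpow_pos_of_pos h3 _
        have e : (-q) * ((-q - 1) * s ^ (-q - 1 - 1)) = q * (q + 1) * s ^ (-q - 1 - 1) := by ring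
        rw [e, Real.norm_eq_abs, abs_of_nonneg (by positivity), hK]
        exact mul_le_mul_of_nonneg_left h4 (by positivity)) left_mem_uIcc right_mem_uIcc
    rw [Real.norm_eq_abs, Real.norm_eq_abs] at this
    exact this.trans (mul_le_mul_of_nonneg_left (hab t ht) hK0)
  have h2 := (convex_uIcc x y).norm_image_sub_le_of_norm_hasDerivWithin_le
      (f := fun t : ℝ => t ^ (-q) - (-q) * x ^ (-q - 1) * t)
      (f' := fun t => (-q) * t ^ (-q - 1) - (-q) * x ^ (-q - 1) * 1)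
      (C := K * |y - x|) (x := x) (y := y) (fun s hs' =>
        ((hd s (hs s hs') _).sub ((hasDerivAt_id s).const_mul _)).hasDerivWithinAt)
      (fun s hs' => by
        rw [mul_one, Real.norm_eq_abs]
        exact h1 s hs') left_mem_uIcc right_mem_uIcc
  rw [Real.norm_eq_abs, Real.norm_eq_abs] at h2
  have e1 : y ^ (-q) - (-q) * x ^ (-q - 1) * y - (x ^ (-q) - (-q) * x ^ (-q - 1) * x) =
      y ^ (-q) - x ^ (-q) + q * x ^ (-q - 1) * (y - x) := by ring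
  rw [e1] at h2
  refine h2.trans (le_of_eq ?_)
  rw [mul_assoc, ← sq, sq_abs]

/-- first order expansion of `‖N‖^(-k)` -/
theorem norm_taylor {c M k : ℝ} (hc : 0 < c) (hk : 0 < k) : ∃ C : ℝ, 0 ≤ C ∧
    ∀ N D : ℂ, c ≤ ‖N‖ → ‖N‖ ≤ M → c ≤ ‖N + D‖ → ‖N + D‖ ≤ M →
      |‖N + D‖ ^ (-k) - ‖N‖ ^ (-k) + k * ‖N‖ ^ (-k) * (D / N).re| ≤ C * ‖D‖ ^ 2 := by
  obtain ⟨q, hq⟩ : ∃ q, q = k / 2 := ⟨_, rfl⟩
  have hq0 : 0 < q := by rw [hq]; linarith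
  obtain ⟨K, hK⟩ : ∃ K, K = q * (q + 1) * (c ^ 2) ^ (-q - 2) := ⟨_, rfl⟩
  have hK0 : 0 ≤ K := by rw [hK]; positivity
  obtain ⟨K', hK'⟩ : ∃ K', K' = q * (c ^ 2) ^ (-q - 1) := ⟨_, rfl⟩
  have hK'0 : 0 ≤ K' := by rw [hK']; positivity
  refine ⟨K * (2 * M) ^ 2 + K', by positivity, ?_⟩
  intro N D h1 h2 h3 h4
  have hN0 : 0 < ‖N‖ := hc.trans_le h1
  have hNne : N ≠ 0 := norm_pos_iff.mp hN0
  have hM : 0 ≤ M := hN0.le.trans h2
  have hp : ∀ z : ℂ, (‖z‖ ^ 2) ^ (-q) = ‖z‖ ^ (-k) := by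
    intro z
    rw [← Real.rpow_natCast, ← Real.rpow_mul (norm_nonneg _)]
    congr 1
    rw [hq]
    push_cast
    ring
  have hx : c ^ 2 ≤ ‖N‖ ^ 2 := by gcongr
  have hy : c ^ 2 ≤ ‖N + D‖ ^ 2 := by gcongr
  have ht := rpow_taylor (a := c ^ 2) (q := q) (x := ‖N‖ ^ 2) (y := ‖N + D‖ ^ 2) (by positivity)
    hq0 hx hy
  rw [hp, hp, ← hK] at ht
  have hre : (D / N).re * ‖N‖ ^ 2 = (conj N * D).re := by
    have h5 : D / N = conj N * D / ((‖N‖ ^ 2 : ℝ) : ℂ) := by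
      have h6 : ((‖N‖ ^ 2 : ℝ) : ℂ) = N * conj N := by
        rw [Complex.mul_conj, Complex.normSq_eq_norm_sq]
      have h7 : conj N ≠ 0 := (map_ne_zero _).mpr hNne
      rw [h6]
      field_simp
    rw [h5, Complex.div_ofReal_re]
    field_simp
  have hsq : ‖N + D‖ ^ 2 - ‖N‖ ^ 2 = 2 * (conj N * D).re + ‖D‖ ^ 2 := by
    rw [← Complex.normSq_eq_norm_sq, ← Complex.normSq_eq_norm_sq, ← Complex.normSq_eq_norm_sq,
      Complex.normSq_add]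
    have : (N * conj D).re = (conj N * D).re := by
      simp [Complex.mul_re]
    rw [this]
    ring
  have hxp : (‖N‖ ^ 2) ^ (-q - 1) = ‖N‖ ^ (-k) / ‖N‖ ^ 2 := by
    rw [Real.rpow_sub_one (by positivity), hp]
  -- the linear term
  have hlin : q * (‖N‖ ^ 2) ^ (-q - 1) * (‖N + D‖ ^ 2 - ‖N‖ ^ 2) =
      k * ‖N‖ ^ (-k) * (D / N).re + q * (‖N‖ ^ 2) ^ (-q - 1) * ‖D‖ ^ 2 := by
    rw [hsq, mul_add]
    congr 1
    rw [hxp, ← hre, hq]
    field_simp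
  have hdiff : |‖N + D‖ ^ 2 - ‖N‖ ^ 2| ≤ 2 * M * ‖D‖ := by
    have h5 : |‖N + D‖ - ‖N‖| ≤ ‖D‖ := by
      have := abs_norm_sub_norm_le (N + D) N
      rwa [add_sub_cancel_left] at this
    have h6 : ‖N + D‖ ^ 2 - ‖N‖ ^ 2 = (‖N + D‖ - ‖N‖) * (‖N + D‖ + ‖N‖) := by ring
    rw [h6, abs_mul, abs_of_nonneg (by positivity : (0:ℝ) ≤ ‖N + D‖ + ‖N‖)]
    calc |‖N + D‖ - ‖N‖| * (‖N + D‖ + ‖N‖) ≤ ‖D‖ * (M + M) := by gcongr
      _ = 2 * M * ‖D‖ := by ring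
  have hsq2 : (‖N + D‖ ^ 2 - ‖N‖ ^ 2) ^ 2 ≤ (2 * M) ^ 2 * ‖D‖ ^ 2 := by
    rw [← sq_abs, ← mul_pow]
    gcongr
  have hxq : q * (‖N‖ ^ 2) ^ (-q - 1) ≤ K' := by
    rw [hK']
    exact mul_le_mul_of_nonneg_left
      (Real.rpow_le_rpow_of_nonpos (by positivity) hx (by linarith)) hq0.le
  have hxq0 : 0 ≤ q * (‖N‖ ^ 2) ^ (-q - 1) := by positivity
  rw [hlin] at ht
  have e1 : ‖N + D‖ ^ (-k) - ‖N‖ ^ (-k) + k * ‖N‖ ^ (-k) * (D / N).re =
      (‖N + D‖ ^ (-k) - ‖N‖ ^ (-k) + (k * ‖N‖ ^ (-k) * (D / N).re +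
        q * (‖N‖ ^ 2) ^ (-q - 1) * ‖D‖ ^ 2)) - q * (‖N‖ ^ 2) ^ (-q - 1) * ‖D‖ ^ 2 := by ring
  rw [e1]
  calc _ ≤ |‖N + D‖ ^ (-k) - ‖N‖ ^ (-k) + (k * ‖N‖ ^ (-k) * (D / N).re +
        q * (‖N‖ ^ 2) ^ (-q - 1) * ‖D‖ ^ 2)| + |q * (‖N‖ ^ 2) ^ (-q - 1) * ‖D‖ ^ 2| :=
        abs_sub _ _
    _ ≤ K * (‖N + D‖ ^ 2 - ‖N‖ ^ 2) ^ 2 + K' * ‖D‖ ^ 2 := by
        apply add_le_add ht
        rw [abs_of_nonneg (by positivity)]
        gcongr
    _ ≤ K * ((2 * M) ^ 2 * ‖D‖ ^ 2) + K' * ‖D‖ ^ 2 := by gcongr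
    _ = _ := by ring

/-- the upper bound for `N` -/
theorem N_le {β : ℂ → ℂ} (h : Ext β) {z : ℂ} (hz : ‖z‖ < 1) : ‖N β z‖ ≤ (1 - ‖z‖ ^ 2)⁻¹ := by
  have hz1 : z ∈ ball (0:ℂ) 1 := by simpa using hz
  obtain ⟨F, hF0, hF, hexp⟩ := Pool.Agent.Helper39.EK.exists_log h hz1
  have h1 := log_bound h hz1 hF hF0 hexp
  have h2 : 0 < 1 - ‖z‖ ^ 2 := by nlinarith [norm_nonneg z]
  rw [← Pool.Agent.Helper39.EK.qq_self, ← hexp z hz1, Complex.norm_exp]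
  have h3 : (F z).re ≤ ‖F z‖ := Complex.re_le_norm (F z)
  calc Real.exp (F z).re ≤ Real.exp (-Real.log (1 - ‖z‖ ^ 2)) :=
        Real.exp_le_exp.mpr (h3.trans h1)
    _ = (1 - ‖z‖ ^ 2)⁻¹ := by rw [Real.exp_neg, Real.exp_log h2]

end Pool.Agent.Helper99.CK
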