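import Pool.Agent.Helper99.CK.Gauss
import Pool.Agent.Helper99.CK.Taylor
import Pool.Agent.Helper5.CK.Defs
set_option autoImplicit false
open Complex MeasureTheory Metric Set Filter Topology
open scoped Real ComplexConjugate

/-!
# Project CK: the critical equation at a maximiser of the area functional
-/

namespace Pool.Agent.Helper99.CK

open Pool.Agent.Helper39.Area Pool.Agent.Helper52.EK Pool.Agent.Helper5.CK

variable {w w' : ℝ → ℝ} {r₁ r₂ : ℝ} {β : ℂ → ℂ} {p τ z : ℂ} {k : ℝ}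

/-- the area functional -/
noncomputable def J (k : ℝ) (w : ℝ → ℝ) (β : ℂ → ℂ) : ℝ := ∫ z : ℂ, w ‖z‖ * ‖N β z‖ ^ (-k)

/-- `Re h = Re (τ ka)` -/
noncomputable def ka (p z : ℂ) : ℂ :=
  p * ((1 - ‖z‖ ^ 2 : ℝ) : ℂ) / ((z - p) * (1 - p * conj z))

/-- `Re (z h') = - Re (τ kb)` -/
noncomputable def kb (p z : ℂ) : ℂ := z * p / (z - p) ^ 2 + p * conj z / (1 - p * conj z) ^ 2

/-- the kernel -/
noncomputable def ker1 (k : ℝ) (β : ℂ → ℂ) (p z : ℂ) : ℂ :=
  k - k * (p * dphi β p / (phi β z - phi β p)) ^ 2 + (k - 2) * ka p z + (k + 2) * kb p z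

/-- the first variation -/
noncomputable def Lam (k : ℝ) (w w' : ℝ → ℝ) (β : ℂ → ℂ) (p : ℂ) : ℂ :=
  ∫ z : ℂ, ((‖N β z‖ ^ (-k) : ℝ) : ℂ) *
    (((w ‖z‖ : ℝ) : ℂ) * ker1 k β p z - ((w' ‖z‖ * ‖z‖ : ℝ) : ℂ) * ka p z)

theorem one_sub_ne (hp : ‖p‖ < 1) (hz : ‖z‖ < 1) : 1 - conj p * z ≠ 0 := by
  intro h
  have h1 : conj p * z = 1 := (sub_eq_zero.mp h).symm
  have h2 : ‖conj p * z‖ = 1 := by rw [h1, norm_one]
  rw [norm_mul, RCLike.norm_conj] at h2
  nlinarith [norm_nonneg p, norm_nonneg z]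

theorem one_sub_ne' (hp : ‖p‖ < 1) (hz : ‖z‖ < 1) : 1 - p * conj z ≠ 0 := by
  have := one_sub_ne (p := z) (z := p) hz hp
  rwa [mul_comm] at this

/-- derivative of `h` -/
noncomputable def dh (p τ z : ℂ) : ℂ :=
  -(τ * (p / (z - p) ^ 2)) - conj τ * (conj p / (1 - conj p * z) ^ 2)

theorem hasDerivAt_hh (hzp : z ≠ p) (h1 : 1 - conj p * z ≠ 0) :
    HasDerivAt (hh p τ) (dh p τ z) z := by
  have h2 : z - p ≠ 0 := sub_ne_zero.mpr hzp
  have a1 : HasDerivAt (fun z : ℂ => (z + p) / (z - p)) ((1 * (z - p) - (z + p) * 1) / (z - p) ^ 2)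
      z := ((hasDerivAt_id z).add_const p).div ((hasDerivAt_id z).sub_const p) h2
  have a2 : HasDerivAt (fun z : ℂ => (1 + conj p * z) / (1 - conj p * z))
      (((conj p * 1) * (1 - conj p * z) - (1 + conj p * z) * (-(conj p * 1))) /
        (1 - conj p * z) ^ 2) z := by
    apply HasDerivAt.div
    · exact ((hasDerivAt_id z).const_mul (conj p)).const_add 1
    · exact ((hasDerivAt_id z).const_mul (conj p)).const_sub 1
    · exact h1
  have a3 := ((a1.const_mul τ).sub (a2.const_mul (conj τ))).const_mul (1 / 2 : ℂ)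
  refine a3.congr_deriv ?_
  unfold dh
  field_simp
  ring

theorem re_hh (hzp : z ≠ p) (hp : ‖p‖ < 1) (hz : ‖z‖ < 1) : (hh p τ z).re = (τ * ka p z).re := by
  have h1 := one_sub_ne hp hz
  have h1' := one_sub_ne' hp hz
  have h2 : z - p ≠ 0 := sub_ne_zero.mpr hzp
  have e1 : (conj τ * ((1 + conj p * z) / (1 - conj p * z))).re =
      (τ * ((1 + p * conj z) / (1 - p * conj z))).re := by
    rw [← Complex.conj_re (τ * _)]
    congr 1
    simp
  have e2 : (hh p τ z).re = (1 / 2) * ((τ * ((z + p) / (z - p))).re -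
      (τ * ((1 + p * conj z) / (1 - p * conj z))).re) := by
    rw [← e1, ← Complex.sub_re]
    unfold hh
    have : (1 / 2 : ℂ) = ((1 / 2 : ℝ) : ℂ) := by norm_num
    rw [this, Complex.re_ofReal_mul]
  rw [e2, ← Complex.sub_re, ← Complex.re_ofReal_mul]
  congr 1
  have e3 : ((1 - ‖z‖ ^ 2 : ℝ) : ℂ) = 1 - z * conj z := by
    rw [Complex.mul_conj, Complex.normSq_eq_norm_sq]
    push_cast
    ring
  unfold ka
  rw [e3]
  push_cast
  field_simp
  ring

theorem re_dh (hzp : z ≠ p) (hp : ‖p‖ < 1) (hz : ‖z‖ < 1) :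
    (z * dh p τ z).re = - (τ * kb p z).re := by
  have h1 := one_sub_ne hp hz
  have h1' := one_sub_ne' hp hz
  have h2 : z - p ≠ 0 := sub_ne_zero.mpr hzp
  have e1 : (z * (conj τ * (conj p / (1 - conj p * z) ^ 2))).re =
      (conj z * (τ * (p / (1 - p * conj z) ^ 2))).re := by
    rw [← Complex.conj_re (conj z * _)]
    congr 1
    simp
  have e2 : z * dh p τ z = -(z * (τ * (p / (z - p) ^ 2))) -
      z * (conj τ * (conj p / (1 - conj p * z) ^ 2)) := by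
    unfold dh; ring
  rw [e2, Complex.sub_re, e1, Complex.neg_re, ← neg_add', ← Complex.add_re]
  congr 2
  unfold kb
  ring

theorem VV_add (β : ℂ → ℂ) (p a b z : ℂ) : VV β p (a + b) z = VV β p a z + VV β p b z := by
  unfold VV eps hh
  rw [map_add]
  ring

/-- the explicit derivative of the variation -/
theorem hasDerivAt_VV (h : Ext β) (hp : ‖p‖ < 1) (hp0 : p ≠ 0) (hz : ‖z‖ < 1) (hz0 : z ≠ 0)
    (hzp : z ≠ p) :
    HasDerivAt (fun z => VV β p τ z - (τ.re : ℂ) * phi β z)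
      (dphi β z * (-(eps β p τ / (phi β z - phi β p) ^ 2) +
        (deriv (N β) z / N β z) * (z * hh p τ z) - 2 * hh p τ z + (hh p τ z + z * dh p τ z) -
        (τ.re : ℂ))) z := by
  have hzb : z ∈ ball (0:ℂ) 1 := by simpa using hz
  have hpb : p ∈ ball (0:ℂ) 1 := by simpa using hp
  have h1 := one_sub_ne hp hz
  have hN : N β z ≠ 0 := h.ne z hzb
  have hne : phi β z - phi β p ≠ 0 := by
    intro h3
    exact hzp (h.inj z p hzb hpb hz0 hp0 (sub_eq_zero.mp h3))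
  have d1 := hasDerivAt_phi h.diff hzb hz0
  have hNd : DifferentiableAt ℂ (N β) z := by
    have : DifferentiableAt ℂ (deriv β) z :=
      ((h.diff.deriv isOpen_ball) z hzb).differentiableAt (isOpen_ball.mem_nhds hzb)
    unfold N
    fun_prop
  have e0 : dphi β =ᶠ[𝓝 z] fun z => -(N β z / z ^ 2) := by
    filter_upwards [isOpen_ne.mem_nhds hz0] with y hy
    have hy' : y ≠ 0 := hy
    unfold dphi N
    field_simp
    ring
  have d2 : HasDerivAt (dphi β) (dphi β z * (deriv (N β) z / N β z - 2 / z)) z := by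
    have h4 : HasDerivAt (fun z => -(N β z / z ^ 2))
        (-((deriv (N β) z * z ^ 2 - N β z * (2 * z)) / (z ^ 2) ^ 2)) z := by
      have h5 := (hasDerivAt_pow 2 z)
      have h6 := (hNd.hasDerivAt.div h5 (pow_ne_zero 2 hz0)).neg
      refine h6.congr_deriv ?_
      norm_num
    refine (h4.congr_of_eventuallyEq e0).congr_deriv ?_
    have e1 : dphi β z = -(N β z / z ^ 2) := e0.self_of_nhds
    rw [e1]
    field_simp
  have d3 := hasDerivAt_hh (τ := τ) hzp h1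
  have d4 : HasDerivAt (fun z => eps β p τ / (phi β z - phi β p))
      (-(eps β p τ * dphi β z) / (phi β z - phi β p) ^ 2) z := by
    have := (hasDerivAt_const z (eps β p τ)).div (d1.sub_const (phi β p)) hne
    refine this.congr_deriv ?_
    ring
  have d5 : HasDerivAt (fun z => dphi β z * (z * hh p τ z))
      (dphi β z * (deriv (N β) z / N β z - 2 / z) * (z * hh p τ z) +
        dphi β z * (1 * hh p τ z + z * dh p τ z)) z :=
    d2.mul ((hasDerivAt_id z).mul d3)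
  have d6 := (d4.add d5).sub (d1.const_mul (τ.re : ℂ))
  refine d6.congr_deriv ?_
  field_simp
  ring

/-- the direction of the variation -/
noncomputable def DD (β : ℂ → ℂ) (p τ z : ℂ) : ℂ :=
  deriv (fun z => VV β p τ z - (τ.re : ℂ) * phi β z) z

theorem ann_ball (hr : r₂ < 1) {z : ℂ} (hz : z ∈ Ann r₁ r₂) : ‖z‖ < 1 := lt_of_le_of_lt hz.2 hr

theorem ann_ne (hr : 0 < r₁) {z : ℂ} (hz : z ∈ Ann r₁ r₂) : z ≠ 0 := by
  rintro rfl
  have := hz.1
  rw [norm_zero] at this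
  linarith

theorem ann_ne_p (hp : ‖p‖ < r₁) {z : ℂ} (hz : z ∈ Ann r₁ r₂) : z ≠ p := by
  rintro rfl
  exact absurd hz.1 (not_le.mpr hp)

/-- `DD` is bounded by a multiple of `‖τ‖` on the annulus -/
theorem DD_bound (h : Ext β) (hr₁ : 0 < r₁) (hr : r₂ < 1) (hp0 : p ≠ 0) (hp : ‖p‖ < r₁)
    (hp1 : ‖p‖ < 1) : ∃ K : ℝ, 0 ≤ K ∧ ∀ τ z : ℂ, z ∈ Ann r₁ r₂ → ‖DD β p τ z‖ ≤ K * ‖τ‖ := by
  have hd : ∀ τ z : ℂ, ‖z‖ < 1 → z ≠ 0 → z ≠ p →
      DifferentiableAt ℂ (fun z => VV β p τ z - (τ.re : ℂ) * phi β z) z := fun τ z h1 h2 h3 =>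
    (hasDerivAt_VV (τ := τ) h hp1 hp0 h1 h2 h3).differentiableAt
  have hlin : ∀ τ z : ℂ, z ∈ Ann r₁ r₂ →
      DD β p τ z = (τ.re : ℂ) * DD β p 1 z + (τ.im : ℂ) * DD β p I z := by
    intro τ z hz
    have d1 := hd 1 z (ann_ball hr hz) (ann_ne hr₁ hz) (ann_ne_p hp hz)
    have d2 := hd I z (ann_ball hr hz) (ann_ne hr₁ hz) (ann_ne_p hp hz)
    unfold DD
    rw [← ((d1.hasDerivAt.const_mul (τ.re : ℂ)).add (d2.hasDerivAt.const_mul (τ.im : ℂ))).deriv]
    congr 1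
    funext y
    have e1 : VV β p τ y = (τ.re : ℂ) * VV β p 1 y + (τ.im : ℂ) * VV β p I y := by
      rw [← VV_smul, ← VV_smul, ← VV_add]
      congr 1
      rw [mul_one]
      exact (Complex.re_add_im τ).symm
    simp only [Pi.add_apply]
    rw [e1]
    simp only [Complex.one_re, Complex.I_re]
    push_cast
    ring
  have hcont : ∀ τ : ℂ, ContinuousOn (DD β p τ) (Ann r₁ r₂) := by
    intro τ
    have hU : IsOpen (ball (0:ℂ) 1 ∩ {0}ᶜ ∩ {p}ᶜ) :=
      (isOpen_ball.inter isOpen_compl_singleton).inter isOpen_compl_singleton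
    have h1 : DifferentiableOn ℂ (fun z => VV β p τ z - (τ.re : ℂ) * phi β z)
        (ball (0:ℂ) 1 ∩ {0}ᶜ ∩ {p}ᶜ) := fun z hz =>
      (hd τ z (by simpa using hz.1.1) (by simpa using hz.1.2) (by simpa using hz.2)
        ).differentiableWithinAt
    refine (h1.deriv hU).continuousOn.mono ?_
    intro z hz
    exact ⟨⟨by simpa using ann_ball hr hz, ann_ne hr₁ hz⟩, ann_ne_p hp hz⟩
  obtain ⟨K1, hK1⟩ := (isCompact_Ann r₁ r₂).exists_bound_of_continuousOn (hcont 1)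
  obtain ⟨K2, hK2⟩ := (isCompact_Ann r₁ r₂).exists_bound_of_continuousOn (hcont I)
  refine ⟨|K1| + |K2|, by positivity, ?_⟩
  intro τ z hz
  rw [hlin τ z hz]
  refine (norm_add_le _ _).trans ?_
  rw [norm_mul, norm_mul, Complex.norm_real, Complex.norm_real, add_mul]
  apply add_le_add
  · rw [mul_comm]
    exact mul_le_mul ((hK1 z hz).trans (le_abs_self _)) (Complex.abs_re_le_norm τ) (norm_nonneg _)
      (abs_nonneg _)
  · rw [mul_comm]
    exact mul_le_mul ((hK2 z hz).trans (le_abs_self _)) (Complex.abs_im_le_norm τ) (norm_nonneg _)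
      (abs_nonneg _)

theorem N_diff (h : Ext β) : DifferentiableOn ℂ (N β) (ball 0 1) := by
  have h1 : DifferentiableOn ℂ (deriv β) (ball 0 1) := h.diff.deriv isOpen_ball
  unfold N
  fun_prop

theorem P_cont (h : Ext β) (k : ℝ) (hr : r₂ < 1) :
    ContinuousOn (fun z => ‖N β z‖ ^ (-k)) (Ann r₁ r₂) := by
  apply ContinuousOn.rpow_const
  · exact ((N_diff h).continuousOn.mono fun z hz => by simpa using ann_ball hr hz).norm
  · intro z hz
    left
    exact norm_ne_zero_iff.mpr (h.ne z (by simpa using ann_ball hr hz))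

theorem J_integrable (hw : Wt w w' r₁ r₂) (hr : r₂ < 1) (h : Ext β) (k : ℝ) :
    Integrable (fun z : ℂ => w ‖z‖ * ‖N β z‖ ^ (-k)) :=
  Wt.integrable_of hw.contw (fun z hz => hw.zero_of_notMem hz) (P_cont h k hr)

/-- the linear functional -/
noncomputable def LL (k : ℝ) (w : ℝ → ℝ) (β : ℂ → ℂ) (p τ : ℂ) : ℝ :=
  ∫ z : ℂ, w ‖z‖ * (‖N β z‖ ^ (-k) * (-k * (DD β p τ z / dphi β z).re))

theorem DD_cont (h : Ext β) (hr₁ : 0 < r₁) (hr : r₂ < 1) (hp0 : p ≠ 0) (hp : ‖p‖ < r₁)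
    (hp1 : ‖p‖ < 1) (τ : ℂ) : ContinuousOn (DD β p τ) (Ann r₁ r₂) := by
  have hU : IsOpen (ball (0:ℂ) 1 ∩ {0}ᶜ ∩ {p}ᶜ) :=
    (isOpen_ball.inter isOpen_compl_singleton).inter isOpen_compl_singleton
  have h1 : DifferentiableOn ℂ (fun z => VV β p τ z - (τ.re : ℂ) * phi β z)
      (ball (0:ℂ) 1 ∩ {0}ᶜ ∩ {p}ᶜ) := fun z hz =>
    (hasDerivAt_VV (τ := τ) h hp1 hp0 (by simpa using hz.1.1) (by simpa using hz.1.2)
      (by simpa using hz.2)).differentiableAt.differentiableWithinAt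
  refine (h1.deriv hU).continuousOn.mono ?_
  intro z hz
  exact ⟨⟨by simpa using ann_ball hr hz, ann_ne hr₁ hz⟩, ann_ne_p hp hz⟩

theorem dphi_eq (hz0 : z ≠ 0) : dphi β z = -(N β z / z ^ 2) := by
  unfold dphi N
  field_simp
  ring

theorem dphi_cont (h : Ext β) (hr₁ : 0 < r₁) (hr : r₂ < 1) :
    ContinuousOn (dphi β) (Ann r₁ r₂) := by
  have h1 : ContinuousOn (deriv β) (Ann r₁ r₂) :=
    (h.diff.deriv isOpen_ball).continuousOn.mono fun z hz => by simpa using ann_ball hr hz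
  unfold dphi
  apply ContinuousOn.add _ h1
  apply ContinuousOn.neg
  apply ContinuousOn.inv₀ (by fun_prop)
  intro z hz
  exact pow_ne_zero 2 (ann_ne hr₁ hz)

/-- first order expansion of the functional -/
theorem J_expand (hV : Variation) (hw : Wt w w' r₁ r₂) (hr12 : r₁ ≤ r₂) (hr : r₂ < 1)
    (hk : 0 < k) (h : Ext β) (hp0 : p ≠ 0) (hp : ‖p‖ < r₁) :
    ∃ C t₁ : ℝ, 0 ≤ C ∧ 0 < t₁ ∧ ∀ τ : ℂ, ‖τ‖ ≤ t₁ → ∃ γ : ℂ → ℂ, Ext γ ∧
      |J k w γ - J k w β - LL k w β p τ| ≤ C * ‖τ‖ ^ 2 := by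
  have hr1 : r₁ < 1 := lt_of_le_of_lt hr12 hr
  have hp1 : ‖p‖ < 1 := hp.trans hr1
  have hr₁ := hw.pos
  obtain ⟨η, hη0, hη1, hη2, hη3, hη4⟩ : ∃ η : ℝ, 0 < η ∧ η ≤ ‖p‖ ∧ η ≤ 1 - r₂ ∧ η ≤ r₁ ∧
      η ≤ r₁ - ‖p‖ := by
    refine ⟨min (min ‖p‖ (1 - r₂)) (min r₁ (r₁ - ‖p‖)), ?_, ?_, ?_, ?_, ?_⟩
    · have : 0 < ‖p‖ := norm_pos_iff.mpr hp0
      exact lt_min (lt_min this (by linarith)) (lt_min hr₁ (by linarith))
    · exact (min_le_left _ _).trans (min_le_left _ _)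
    · exact (min_le_left _ _).trans (min_le_right _ _)
    · exact (min_le_right _ _).trans (min_le_left _ _)
    · exact (min_le_right _ _).trans (min_le_right _ _)
  obtain ⟨C, t0, hC, ht0, hvar⟩ := hV η hη0
  obtain ⟨K, hK0, hK⟩ := DD_bound h hr₁ hr hp0 hp hp1
  obtain ⟨c, hc⟩ : ∃ c, c = 1 - r₂ ^ 2 := ⟨_, rfl⟩
  have hr20 : 0 ≤ r₂ := hr₁.le.trans hr12
  have hc0 : 0 < c := by rw [hc]; nlinarith
  obtain ⟨C1, hC10, hC1⟩ := norm_taylor (c := c) (M := c⁻¹) (k := k) hc0 hk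
  obtain ⟨Cw, hCw⟩ : ∃ Cw, Cw = ∫ z : ℂ, |w ‖z‖| := ⟨_, rfl⟩
  have hCw0 : 0 ≤ Cw := by rw [hCw]; exact integral_nonneg fun z => abs_nonneg _
  obtain ⟨C2, hC2⟩ : ∃ C2, C2 = C1 * (K + C) ^ 2 + k * c ^ (-k) * (C / c) := ⟨_, rfl⟩
  have hC20 : 0 ≤ C2 := by rw [hC2]; positivity
  refine ⟨Cw * C2, min t0 1, by positivity, lt_min ht0 one_pos, ?_⟩
  intro τ hτ
  have hτ1 : ‖τ‖ ≤ 1 := hτ.trans (min_le_right _ _)
  obtain ⟨γ, hγ, hγ2⟩ := hvar β h p hη1 (by linarith) τ (hτ.trans (min_le_left _ _))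
  refine ⟨γ, hγ, ?_⟩
  have i1 := J_integrable hw hr hγ k
  have i2 := J_integrable hw hr h k
  have i3 : Integrable (fun z : ℂ => w ‖z‖ * (‖N β z‖ ^ (-k) *
      (-k * (DD β p τ z / dphi β z).re))) := by
    apply Wt.integrable_of hw.contw (fun z hz => hw.zero_of_notMem hz)
    apply (P_cont h k hr).mul
    apply continuousOn_const.mul
    apply Complex.continuous_re.comp_continuousOn
    apply (DD_cont h hr₁ hr hp0 hp hp1 τ).div (dphi_cont h hr₁ hr)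
    intro z hz h0
    have hz0 := ann_ne hr₁ hz
    rw [dphi_eq hz0, neg_eq_zero, div_eq_zero_iff] at h0
    rcases h0 with h0 | h0
    · exact h.ne z (by simpa using ann_ball hr hz) h0
    · exact pow_ne_zero 2 hz0 h0
  have i4 : Integrable (fun z : ℂ => |w ‖z‖| * C2 * ‖τ‖ ^ 2) := by
    have : Integrable (fun z : ℂ => w ‖z‖ * (1:ℝ)) :=
      Wt.integrable_of hw.contw (fun z hz => hw.zero_of_notMem hz) continuousOn_const
    have h1 := (this.abs.mul_const C2).mul_const (‖τ‖ ^ 2)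
    simpa using h1
  have e1 : J k w γ - J k w β - LL k w β p τ =
      ∫ z : ℂ, (w ‖z‖ * ‖N γ z‖ ^ (-k) - w ‖z‖ * ‖N β z‖ ^ (-k) -
        w ‖z‖ * (‖N β z‖ ^ (-k) * (-k * (DD β p τ z / dphi β z).re))) := by
    have i12 : Integrable (fun z : ℂ => w ‖z‖ * ‖N γ z‖ ^ (-k) - w ‖z‖ * ‖N β z‖ ^ (-k)) :=
      i1.sub i2
    unfold J LL
    rw [integral_sub i12 i3, integral_sub i1 i2]
  rw [e1, ← Real.norm_eq_abs]
  have e2 : Cw * C2 * ‖τ‖ ^ 2 = ∫ z : ℂ, |w ‖z‖| * C2 * ‖τ‖ ^ 2 := by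
    rw [integral_mul_const, integral_mul_const, hCw]
  rw [e2]
  apply norm_integral_le_of_norm_le i4
  refine Eventually.of_forall fun z => ?_
  rw [Real.norm_eq_abs]
  by_cases hz : z ∈ Ann r₁ r₂
  swap
  · rw [hw.zero_of_notMem hz]
    simp
  have hz1 := ann_ball hr hz
  have hz0 := ann_ne hr₁ hz
  have hzb : z ∈ ball (0:ℂ) 1 := by simpa using hz1
  have hg := hγ2 z (hη3.trans hz.1) (by linarith [hz.2]) (by
    have h1 := norm_sub_norm_le z p
    linarith [hz.1])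
  have e3 : w ‖z‖ * ‖N γ z‖ ^ (-k) - w ‖z‖ * ‖N β z‖ ^ (-k) -
        w ‖z‖ * (‖N β z‖ ^ (-k) * (-k * (DD β p τ z / dphi β z).re)) =
      w ‖z‖ * (‖N γ z‖ ^ (-k) - ‖N β z‖ ^ (-k) +
        k * ‖N β z‖ ^ (-k) * (DD β p τ z / dphi β z).re) := by ring
  rw [e3, abs_mul, mul_assoc |w ‖z‖| C2]
  apply mul_le_mul_of_nonneg_left _ (abs_nonneg _)
  -- the pointwise estimate
  have hzn : 0 < ‖z‖ := norm_pos_iff.mpr hz0
  have hzsq : 1 - ‖z‖ ^ 2 ≥ c := by
    rw [hc]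
    have := pow_le_pow_left₀ (norm_nonneg z) hz.2 2
    linarith
  have b1 : c ≤ ‖N β z‖ := hzsq.le.trans (Pool.Agent.Helper39.EK.N_ge h hz1)
  have b2 : ‖N β z‖ ≤ c⁻¹ := (N_le h hz1).trans (inv_anti₀ hc0 hzsq)
  have b3 : c ≤ ‖N γ z‖ := hzsq.le.trans (Pool.Agent.Helper39.EK.N_ge hγ hz1)
  have b4 : ‖N γ z‖ ≤ c⁻¹ := (N_le hγ hz1).trans (inv_anti₀ hc0 hzsq)
  obtain ⟨g, hgd⟩ : ∃ g, g = deriv γ z - deriv β z := ⟨_, rfl⟩
  have e4 : N γ z = N β z + -(z ^ 2 * g) := by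
    rw [hgd]; unfold N; ring
  rw [← hgd] at hg
  have hg' : ‖g - DD β p τ z‖ ≤ C * ‖τ‖ ^ 2 := hg
  have hgn : ‖g‖ ≤ (K + C) * ‖τ‖ := by
    have h1 : g = (g - DD β p τ z) + DD β p τ z := by ring
    have h2 : ‖g‖ ≤ ‖g - DD β p τ z‖ + ‖DD β p τ z‖ := by
      conv_lhs => rw [h1]
      exact norm_add_le _ _
    have h3 := hK τ z hz
    have h4 : ‖τ‖ ^ 2 ≤ ‖τ‖ := by
      rw [sq]; exact mul_le_of_le_one_left (norm_nonneg τ) hτ1
    have h5 : C * ‖τ‖ ^ 2 ≤ C * ‖τ‖ := mul_le_mul_of_nonneg_left h4 hC.le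
    rw [add_mul]
    linarith
  have ht := hC1 (N β z) (-(z ^ 2 * g)) b1 b2 (by rw [← e4]; exact b3) (by rw [← e4]; exact b4)
  rw [← e4] at ht
  have hN0 : N β z ≠ 0 := h.ne z hzb
  have hd0 : dphi β z ≠ 0 := by
    rw [dphi_eq hz0, neg_ne_zero]
    exact div_ne_zero hN0 (pow_ne_zero 2 hz0)
  have e5 : -(z ^ 2 * g) / N β z = g / dphi β z := by
    rw [dphi_eq hz0]
    field_simp
  rw [e5] at ht
  have hn : ‖-(z ^ 2 * g)‖ ≤ (K + C) * ‖τ‖ := by
    rw [norm_neg, norm_mul, norm_pow]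
    have h1 : ‖z‖ ^ 2 ≤ 1 := pow_le_one₀ (norm_nonneg z) hz1.le
    calc ‖z‖ ^ 2 * ‖g‖ ≤ 1 * ‖g‖ := by gcongr
      _ ≤ _ := by rw [one_mul]; exact hgn
  have hKC : 0 ≤ K + C := by linarith
  have ht2 : C1 * ‖-(z ^ 2 * g)‖ ^ 2 ≤ C1 * (K + C) ^ 2 * ‖τ‖ ^ 2 := by
    calc C1 * ‖-(z ^ 2 * g)‖ ^ 2 ≤ C1 * ((K + C) * ‖τ‖) ^ 2 := by gcongr
      _ = _ := by ring
  have hdl : c ≤ ‖dphi β z‖ := by
    rw [dphi_eq hz0, norm_neg, norm_div, norm_pow, le_div_iff₀ (by positivity)]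
    have h1 : ‖z‖ ^ 2 ≤ 1 := pow_le_one₀ (norm_nonneg z) hz1.le
    calc c * ‖z‖ ^ 2 ≤ c * 1 := by gcongr
      _ ≤ ‖N β z‖ := by rw [mul_one]; exact b1
  have hre : |(DD β p τ z / dphi β z).re - (g / dphi β z).re| ≤ C * ‖τ‖ ^ 2 / c := by
    rw [← Complex.sub_re, ← sub_div]
    refine (Complex.abs_re_le_norm _).trans ?_
    rw [norm_div, ← norm_neg, neg_sub]
    apply div_le_div₀ (by positivity) hg' hc0 hdl
  have hPn : ‖N β z‖ ^ (-k) ≤ c ^ (-k) := Real.rpow_le_rpow_of_nonpos hc0 b1 (by linarith)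
  have hP0 : 0 ≤ ‖N β z‖ ^ (-k) := by positivity
  have e6 : ‖N γ z‖ ^ (-k) - ‖N β z‖ ^ (-k) + k * ‖N β z‖ ^ (-k) * (DD β p τ z / dphi β z).re =
      (‖N γ z‖ ^ (-k) - ‖N β z‖ ^ (-k) + k * ‖N β z‖ ^ (-k) * (g / dphi β z).re) +
      k * ‖N β z‖ ^ (-k) * ((DD β p τ z / dphi β z).re - (g / dphi β z).re) := by ring
  rw [e6]
  refine (abs_add_le _ _).trans ?_
  rw [hC2, add_mul]
  apply add_le_add (ht.trans ht2)
  rw [abs_mul, abs_of_nonneg (by positivity)]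
  calc k * ‖N β z‖ ^ (-k) * |(DD β p τ z / dphi β z).re - (g / dphi β z).re| ≤
      k * c ^ (-k) * (C * ‖τ‖ ^ 2 / c) := by gcongr
    _ = _ := by ring

/-- integrability of a complex function continuous on the annulus times the weight -/
theorem integrable_ofC {g : ℂ → ℂ} {u : ℝ → ℝ} (hu : Continuous u)
    (hs : ∀ z : ℂ, z ∉ Ann r₁ r₂ → u ‖z‖ = 0) (hg : ContinuousOn g (Ann r₁ r₂)) :
    Integrable (fun z : ℂ => ((u ‖z‖ : ℝ) : ℂ) * g z) := by
  have h1 : ContinuousOn (fun z : ℂ => ((u ‖z‖ : ℝ) : ℂ) * g z) (Ann r₁ r₂) :=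
    (Complex.continuous_ofReal.comp (hu.comp continuous_norm)).continuousOn.mul hg
  have h2 := h1.integrableOn_compact (isCompact_Ann r₁ r₂) (μ := volume)
  have h3 : (fun z : ℂ => ((u ‖z‖ : ℝ) : ℂ) * g z) =
      (Ann r₁ r₂).indicator (fun z : ℂ => ((u ‖z‖ : ℝ) : ℂ) * g z) := by
    funext z
    by_cases hz : z ∈ Ann r₁ r₂
    · rw [indicator_of_mem hz]
    · rw [indicator_of_notMem hz, hs z hz, Complex.ofReal_zero, zero_mul]
  rw [h3]
  exact (integrable_indicator_iff (measurableSet_Ann r₁ r₂)).mpr h2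

theorem phi_cont (h : Ext β) (hr₁ : 0 < r₁) (hr : r₂ < 1) :
    ContinuousOn (phi β) (Ann r₁ r₂) := fun z hz =>
  (hasDerivAt_phi h.diff (by simpa using ann_ball hr hz) (ann_ne hr₁ hz)
    ).continuousAt.continuousWithinAt

theorem phi_ne (h : Ext β) (hr₁ : 0 < r₁) (hr : r₂ < 1) (hp0 : p ≠ 0) (hp : ‖p‖ < r₁)
    (hp1 : ‖p‖ < 1) {z : ℂ} (hz : z ∈ Ann r₁ r₂) : phi β z - phi β p ≠ 0 := by
  intro h3
  exact ann_ne_p hp hz (h.inj z p (by simpa using ann_ball hr hz) (by simpa using hp1)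
    (ann_ne hr₁ hz) hp0 (sub_eq_zero.mp h3))

theorem ka_cont (hr : r₂ < 1) (hp : ‖p‖ < r₁) (hp1 : ‖p‖ < 1) :
    ContinuousOn (ka p) (Ann r₁ r₂) := by
  unfold ka
  apply ContinuousOn.div
  · fun_prop
  · fun_prop
  · intro z hz
    exact mul_ne_zero (sub_ne_zero.mpr (ann_ne_p hp hz)) (one_sub_ne' hp1 (ann_ball hr hz))

theorem kb_cont (hr : r₂ < 1) (hp : ‖p‖ < r₁) (hp1 : ‖p‖ < 1) :
    ContinuousOn (kb p) (Ann r₁ r₂) := by
  unfold kb
  apply ContinuousOn.add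
  · apply ContinuousOn.div (by fun_prop) (by fun_prop)
    intro z hz
    exact pow_ne_zero 2 (sub_ne_zero.mpr (ann_ne_p hp hz))
  · apply ContinuousOn.div (by fun_prop) (by fun_prop)
    intro z hz
    exact pow_ne_zero 2 (one_sub_ne' hp1 (ann_ball hr hz))

theorem ker1_cont (h : Ext β) (hr₁ : 0 < r₁) (hr : r₂ < 1) (hp0 : p ≠ 0) (hp : ‖p‖ < r₁)
    (hp1 : ‖p‖ < 1) : ContinuousOn (ker1 k β p) (Ann r₁ r₂) := by
  unfold ker1
  have h1 : ContinuousOn (fun z => (p * dphi β p / (phi β z - phi β p)) ^ 2) (Ann r₁ r₂) := by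
    apply ContinuousOn.pow
    apply ContinuousOn.div continuousOn_const
    · exact (phi_cont h hr₁ hr).sub continuousOn_const
    · intro z hz
      exact phi_ne h hr₁ hr hp0 hp hp1 hz
  exact ((continuousOn_const.sub (continuousOn_const.mul h1)).add
    (continuousOn_const.mul (ka_cont hr hp hp1))).add
    (continuousOn_const.mul (kb_cont hr hp hp1))

/-- the integrand of `Lam` is integrable -/
theorem Lam_integrable (hw : Wt w w' r₁ r₂) (hr : r₂ < 1) (h : Ext β) (hp0 : p ≠ 0)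
    (hp : ‖p‖ < r₁) (hp1 : ‖p‖ < 1) (k : ℝ) :
    Integrable (fun z : ℂ => ((‖N β z‖ ^ (-k) : ℝ) : ℂ) *
    (((w ‖z‖ : ℝ) : ℂ) * ker1 k β p z - ((w' ‖z‖ * ‖z‖ : ℝ) : ℂ) * ka p z)) := by
  have hr₁ := hw.pos
  have cP : ContinuousOn (fun z => ((‖N β z‖ ^ (-k) : ℝ) : ℂ)) (Ann r₁ r₂) :=
    Complex.continuous_ofReal.comp_continuousOn (P_cont h k hr)
  have i1 := integrable_ofC (r₁ := r₁) (r₂ := r₂) hw.contw (fun z hz => hw.zero_of_notMem hz)
    (cP.mul (ker1_cont (k := k) h hr₁ hr hp0 hp hp1))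
  have i2 := integrable_ofC (r₁ := r₁) (r₂ := r₂) (u := fun x => w' x * x)
    (hw.cont.mul continuous_id) (fun z hz => by
      show w' ‖z‖ * ‖z‖ = 0
      rw [hw.zero_of_notMem' hz, zero_mul]) (cP.mul (ka_cont hr hp hp1))
  refine (i1.sub i2).congr (Eventually.of_forall fun z => ?_)
  simp only [Pi.sub_apply, Pi.mul_apply]
  ring

/-- the linear functional in closed form -/
theorem LL_eq (hw : Wt w w' r₁ r₂) (hr : r₂ < 1) (h : Ext β) (hp0 : p ≠ 0) (hp : ‖p‖ < r₁)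
    (hp1 : ‖p‖ < 1) (k : ℝ) (τ : ℂ) : LL k w β p τ = (τ * Lam k w w' β p).re := by
  have hr₁ := hw.pos
  -- the right side as a real integral
  have e1 : (τ * Lam k w w' β p).re = ∫ z : ℂ, (τ * (((‖N β z‖ ^ (-k) : ℝ) : ℂ) *
      (((w ‖z‖ : ℝ) : ℂ) * ker1 k β p z - ((w' ‖z‖ * ‖z‖ : ℝ) : ℂ) * ka p z))).re := by
    unfold Lam
    rw [← integral_const_mul]
    exact (integral_re ((Lam_integrable hw hr h hp0 hp hp1 k).const_mul τ)).symm
  rw [e1]
  -- the divergence theorem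
  have hU : IsOpen (ball (0:ℂ) 1 ∩ {p}ᶜ) := isOpen_ball.inter isOpen_compl_singleton
  have hAU : Ann r₁ r₂ ⊆ ball (0:ℂ) 1 ∩ {p}ᶜ := fun z hz =>
    ⟨by simpa using ann_ball hr hz, ann_ne_p hp hz⟩
  have hv : DifferentiableOn ℂ (fun z => z * hh p τ z) (ball (0:ℂ) 1 ∩ {p}ᶜ) := by
    intro z hz
    have hz1 : ‖z‖ < 1 := by simpa using hz.1
    exact ((hasDerivAt_id z).mul (hasDerivAt_hh (τ := τ) (by simpa using hz.2)
      (one_sub_ne hp1 hz1))).differentiableAt.differentiableWithinAt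
  have hg := hw.gauss hU hAU ((N_diff h).mono inter_subset_left) hv
    (fun z hz => h.ne z (by simpa using ann_ball hr hz)) k
  have hdv : ∀ z ∈ Ann r₁ r₂, deriv (fun z => z * hh p τ z) z = hh p τ z + z * dh p τ z := by
    intro z hz
    have := ((hasDerivAt_id z).mul (hasDerivAt_hh (τ := τ) (ann_ne_p hp hz)
      (one_sub_ne hp1 (ann_ball hr hz)))).deriv
    rw [show (fun z => z * hh p τ z) = (id * hh p τ) from rfl, this]
    simp
  -- continuity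
  have cP := P_cont (r₁ := r₁) h k hr
  have chh : ContinuousOn (hh p τ) (Ann r₁ r₂) := fun z hz =>
    (hasDerivAt_hh (τ := τ) (ann_ne_p hp hz) (one_sub_ne hp1 (ann_ball hr hz))
      ).continuousAt.continuousWithinAt
  have cN : ContinuousOn (N β) (Ann r₁ r₂) :=
    (N_diff h).continuousOn.mono fun z hz => by simpa using ann_ball hr hz
  have cdN : ContinuousOn (deriv (N β)) (Ann r₁ r₂) :=
    ((N_diff h).deriv isOpen_ball).continuousOn.mono fun z hz => by simpa using ann_ball hr hz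
  have hN0 : ∀ z ∈ Ann r₁ r₂, N β z ≠ 0 := fun z hz => h.ne z (by simpa using ann_ball hr hz)
  have ci : ContinuousOn (fun z => k * (z * hh p τ z * (deriv (N β) z / N β z)).re)
      (Ann r₁ r₂) :=
    continuousOn_const.mul (Complex.continuous_re.comp_continuousOn
      ((continuousOn_id.mul chh).mul (cdN.div cN hN0)))
  have iA : Integrable (fun z : ℂ => w ‖z‖ * (‖N β z‖ ^ (-k) *
      (k * (z * hh p τ z * (deriv (N β) z / N β z)).re))) :=
    Wt.integrable_of hw.contw (fun z hz => hw.zero_of_notMem hz) (cP.mul ci)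
  have cdv : ContinuousOn (deriv (fun z => z * hh p τ z)) (Ann r₁ r₂) :=
    (hv.deriv hU).continuousOn.mono hAU
  have cab : ContinuousOn (fun z : ℂ => ((conj z * (z * hh p τ z)).re / ‖z‖)) (Ann r₁ r₂) := by
    apply ContinuousOn.div
    · exact Complex.continuous_re.comp_continuousOn
        (continuous_conj.continuousOn.mul (continuousOn_id.mul chh))
    · exact continuous_norm.continuousOn
    · intro z hz
      exact norm_ne_zero_iff.mpr (ann_ne hr₁ hz)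
  have iB : Integrable (fun z : ℂ => w ‖z‖ * (‖N β z‖ ^ (-k) *
      (2 * (deriv (fun z => z * hh p τ z) z).re)) +
      w' ‖z‖ * (‖N β z‖ ^ (-k) * ((conj z * (z * hh p τ z)).re / ‖z‖))) := by
    apply Integrable.add
    · exact Wt.integrable_of hw.contw (fun z hz => hw.zero_of_notMem hz)
        (cP.mul (continuousOn_const.mul (Complex.continuous_re.comp_continuousOn cdv)))
    · exact Wt.integrable_of hw.cont (fun z hz => hw.zero_of_notMem' hz) (cP.mul cab)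
  have iC : Integrable (fun z : ℂ => w ‖z‖ * (‖N β z‖ ^ (-k) *
      (-k * (DD β p τ z / dphi β z).re))) := by
    apply Wt.integrable_of hw.contw (fun z hz => hw.zero_of_notMem hz)
    apply cP.mul
    apply continuousOn_const.mul
    apply Complex.continuous_re.comp_continuousOn
    apply (DD_cont h hr₁ hr hp0 hp hp1 τ).div (dphi_cont h hr₁ hr)
    intro z hz h0
    have hz0 := ann_ne hr₁ hz
    rw [dphi_eq hz0, neg_eq_zero, div_eq_zero_iff] at h0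
    rcases h0 with h0 | h0
    · exact hN0 z hz h0
    · exact pow_ne_zero 2 hz0 h0
  have e2 : LL k w β p τ = ∫ z : ℂ, ((w ‖z‖ * (‖N β z‖ ^ (-k) *
      (-k * (DD β p τ z / dphi β z).re)) + w ‖z‖ * (‖N β z‖ ^ (-k) *
      (k * (z * hh p τ z * (deriv (N β) z / N β z)).re))) -
      (w ‖z‖ * (‖N β z‖ ^ (-k) *
      (2 * (deriv (fun z => z * hh p τ z) z).re)) +
      w' ‖z‖ * (‖N β z‖ ^ (-k) * ((conj z * (z * hh p τ z)).re / ‖z‖)))) := by
    have iCA : Integrable (fun z : ℂ => w ‖z‖ * (‖N β z‖ ^ (-k) *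
        (-k * (DD β p τ z / dphi β z).re)) + w ‖z‖ * (‖N β z‖ ^ (-k) *
        (k * (z * hh p τ z * (deriv (N β) z / N β z)).re))) := iC.add iA
    rw [integral_sub iCA iB, integral_add iC iA, hg]
    unfold LL
    ring
  rw [e2]
  apply integral_congr_ae
  refine Eventually.of_forall fun z => ?_
  beta_reduce
  by_cases hz : z ∈ Ann r₁ r₂
  swap
  · rw [hw.zero_of_notMem hz, hw.zero_of_notMem' hz]
    simp
  have hz0 := ann_ne hr₁ hz
  have hz1 := ann_ball hr hz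
  have hzp := ann_ne_p hp hz
  have hd0 : dphi β z ≠ 0 := by
    rw [dphi_eq hz0, neg_ne_zero]
    exact div_ne_zero (hN0 z hz) (pow_ne_zero 2 hz0)
  have e3 : DD β p τ z / dphi β z = -(eps β p τ / (phi β z - phi β p) ^ 2) +
        (deriv (N β) z / N β z) * (z * hh p τ z) - 2 * hh p τ z + (hh p τ z + z * dh p τ z) -
        (τ.re : ℂ) := by
    unfold DD
    rw [(hasDerivAt_VV (τ := τ) h hp1 hp0 hz1 hz0 hzp).deriv]
    field_simp
  rw [e3, hdv z hz]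
  have e4 : (conj z * (z * hh p τ z)).re / ‖z‖ = ‖z‖ * (hh p τ z).re := by
    have h1 : conj z * (z * hh p τ z) = ((‖z‖ ^ 2 : ℝ) : ℂ) * hh p τ z := by
      rw [← mul_assoc, mul_comm (conj z), Complex.mul_conj, Complex.normSq_eq_norm_sq]
    have h2 : ‖z‖ ≠ 0 := norm_ne_zero_iff.mpr hz0
    rw [h1, Complex.re_ofReal_mul]
    field_simp
  have e5 : (τ * (((‖N β z‖ ^ (-k) : ℝ) : ℂ) *
      (((w ‖z‖ : ℝ) : ℂ) * ker1 k β p z - ((w' ‖z‖ * ‖z‖ : ℝ) : ℂ) * ka p z))).re =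
      ‖N β z‖ ^ (-k) * (w ‖z‖ * (τ * ker1 k β p z).re -
        (w' ‖z‖ * ‖z‖) * (τ * ka p z).re) := by
    rw [← Complex.re_ofReal_mul, ← Complex.re_ofReal_mul, ← Complex.sub_re,
      ← Complex.re_ofReal_mul]
    congr 1
    ring
  have e6 : (τ * ker1 k β p z).re = k * τ.re +
      k * (eps β p τ / (phi β z - phi β p) ^ 2).re + (k - 2) * (τ * ka p z).re +
      (k + 2) * (τ * kb p z).re := by
    have h1 : τ * ker1 k β p z = ((k : ℝ) : ℂ) * τ +
        ((k : ℝ) : ℂ) * (eps β p τ / (phi β z - phi β p) ^ 2) +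
        ((k - 2 : ℝ) : ℂ) * (τ * ka p z) + ((k + 2 : ℝ) : ℂ) * (τ * kb p z) := by
      unfold ker1 eps
      generalize phi β z - phi β p = d
      push_cast
      ring
    rw [h1, Complex.add_re, Complex.add_re, Complex.add_re, Complex.re_ofReal_mul,
      Complex.re_ofReal_mul, Complex.re_ofReal_mul, Complex.re_ofReal_mul]
  rw [e4, e5, e6, ← re_hh hzp hp1 hz1]
  have e7 : (τ * kb p z).re = - (z * dh p τ z).re := by
    rw [re_dh hzp hp1 hz1, neg_neg]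
  rw [e7]
  have e8 : (deriv (N β) z / N β z) * (z * hh p τ z) =
      z * hh p τ z * (deriv (N β) z / N β z) := by ring
  rw [e8]
  simp only [Complex.add_re, Complex.sub_re, Complex.neg_re, Complex.ofReal_re]
  have e9 : (2 * hh p τ z).re = 2 * (hh p τ z).re := by
    have : (2 : ℂ) = ((2 : ℝ) : ℂ) := by norm_num
    rw [this, Complex.re_ofReal_mul]
  rw [e9]
  ring

/-- **the critical equation** at a maximiser of the area functional -/
theorem crit (hV : Variation) (hw : Wt w w' r₁ r₂) (hr12 : r₁ ≤ r₂) (hr : r₂ < 1)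
    (hk : 0 < k) (h : Ext β) (hmax : ∀ γ : ℂ → ℂ, Ext γ → J k w γ ≤ J k w β)
    (hp0 : p ≠ 0) (hp : ‖p‖ < r₁) : Lam k w w' β p = 0 := by
  have hp1 : ‖p‖ < 1 := hp.trans (lt_of_le_of_lt hr12 hr)
  obtain ⟨C, t₁, hC, ht₁, hexp⟩ := J_expand hV hw hr12 hr hk h hp0 hp
  by_contra hne
  have hL : 0 < ‖Lam k w w' β p‖ := norm_pos_iff.mpr hne
  obtain ⟨L, hLd⟩ : ∃ L, L = ‖Lam k w w' β p‖ := ⟨_, rfl⟩
  rw [← hLd] at hL
  obtain ⟨s, hs0, hs1, hs2⟩ : ∃ s : ℝ, 0 < s ∧ s * L ≤ t₁ ∧ C * s < 1 := by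
    refine ⟨min (t₁ / L) (1 / (C + 1)), by positivity, ?_, ?_⟩
    · calc min (t₁ / L) (1 / (C + 1)) * L ≤ t₁ / L * L := by
            gcongr; exact min_le_left _ _
        _ = t₁ := by field_simp
    · have h1 : min (t₁ / L) (1 / (C + 1)) ≤ 1 / (C + 1) := min_le_right _ _
      calc C * min (t₁ / L) (1 / (C + 1)) ≤ C * (1 / (C + 1)) := by gcongr
        _ < 1 := by
          rw [mul_one_div, div_lt_one (by positivity)]
          linarith
  have hn : ‖((s : ℝ) : ℂ) * conj (Lam k w w' β p)‖ = s * L := by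
    rw [norm_mul, Complex.norm_real, Real.norm_of_nonneg hs0.le, RCLike.norm_conj, hLd]
  obtain ⟨γ, hγ, hγ2⟩ := hexp (((s : ℝ) : ℂ) * conj (Lam k w w' β p)) (by rw [hn]; exact hs1)
  rw [LL_eq hw hr h hp0 hp hp1, hn] at hγ2
  have e1 : (((s : ℝ) : ℂ) * conj (Lam k w w' β p) * Lam k w w' β p).re = s * L ^ 2 := by
    rw [mul_assoc, Complex.re_ofReal_mul, mul_comm (conj _), Complex.mul_conj,
      Complex.normSq_eq_norm_sq, Complex.ofReal_re, hLd]
  rw [e1] at hγ2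
  have h2 := hmax γ hγ
  have h3 := (abs_le.mp hγ2).1
  have h4 : s * L ^ 2 ≤ C * (s * L) ^ 2 := by linarith
  have h5 : C * (s * L) ^ 2 = (C * s) * (s * L ^ 2) := by ring
  rw [h5] at h4
  have h6 : 0 < s * L ^ 2 := by positivity
  nlinarith

end Pool.Agent.Helper99.CK
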